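import Mathlib

set_option autoImplicit false

/-! Erdős–Turán for additive bases with many multipliers. -/

namespace Pool.Agent.H523R3.ETMul

open Finset Classical

/-- The number of ordered `h`-tuples of elements of `A` with sum `n`. -/
noncomputable def reps (A : Set ℕ) (h n : ℕ) : ℕ :=
  ((Finset.Nat.antidiagonalTuple h n).filter (fun v => ∀ i, v i ∈ A)).card

/-- The multipliers of `A`: the integers `m` with `m A ⊆ A`. -/
def mult (A : Set ℕ) : Set ℕ := {m | ∀ a ∈ A, m * a ∈ A}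

lemma mult_mul {A : Set ℕ} {m n : ℕ} (hm : m ∈ mult A) (hn : n ∈ mult A) : m * n ∈ mult A := by
  intro a ha
  rw [mul_assoc]
  exact hm _ (hn _ ha)

lemma mult_one (A : Set ℕ) : 1 ∈ mult A := by
  intro a ha
  simpa using ha

lemma mult_prod {A : Set ℕ} {ι : Type*} (s : Finset ι) (f : ι → ℕ) (hf : ∀ i ∈ s, f i ∈ mult A) :
    ∏ i ∈ s, f i ∈ mult A := by
  induction s using Finset.induction_on with
  | empty => simpa using mult_one A
  | insert i s hi ih =>
    rw [Finset.prod_insert hi]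
    exact mult_mul (hf i (by simp)) (ih (fun j hj => hf j (by simp [hj])))

/-- The set of the quotients `b / gcd(x₀, b)` over all representations of large multipliers. -/
def W (A : Set ℕ) (k n0 : ℕ) : Set ℕ :=
  {w | ∃ b ∈ mult A, n0 ≤ b ∧ ∃ x : Fin (k + 2) → ℕ, (∀ i, x i ∈ A) ∧ ∑ i, x i = b ∧
    w = b / Nat.gcd (x 0) b}

lemma lt_of_rep {A : Set ℕ} (h0 : 0 ∉ A) {k b : ℕ} {x : Fin (k + 2) → ℕ} (hx : ∀ i, x i ∈ A)
    (hs : ∑ i, x i = b) (i : Fin (k + 2)) : 0 < x i ∧ x i < b := by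
  have hpos : ∀ i, 0 < x i := fun i => Nat.pos_of_ne_zero (fun h => h0 (h ▸ hx i))
  refine ⟨hpos i, ?_⟩
  obtain ⟨j, hj⟩ : ∃ j : Fin (k + 2), j ≠ i := exists_ne i
  rw [← hs]
  calc x i < x i + x j := by have := hpos j; omega
    _ = ∑ l ∈ ({i, j} : Finset (Fin (k + 2))), x l := by
        rw [Finset.sum_pair (Ne.symm hj)]
    _ ≤ ∑ l, x l := Finset.sum_le_sum_of_subset (Finset.subset_univ _)

lemma card_le {A : Set ℕ} (h0 : 0 ∉ A) {k n0 r : ℕ} (hr : ∀ n, reps A (k + 2) n ≤ r)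
    (F : Finset ℕ) (hF : (↑F : Set ℕ) ⊆ W A k n0) : F.card ≤ r := by
  have hF' : ∀ w ∈ F, w ∈ W A k n0 := fun w hw => hF (Finset.mem_coe.2 hw)
  choose! b hbM _ x hxA hxs hw using hF'
  have hb : ∀ w ∈ F, 0 < b w := fun w hw' => by
    have := (lt_of_rep h0 (hxA w hw') (hxs w hw') 0)
    omega
  let N := ∏ w ∈ F, b w
  let y : ℕ → (Fin (k + 2) → ℕ) := fun w i => (∏ w' ∈ F.erase w, b w') * x w i
  refine le_trans ?_ (hr N)
  unfold reps
  apply Finset.card_le_card_of_injOn y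
  · intro w hw'
    rw [Finset.mem_coe] at hw'
    simp only [Finset.coe_filter, Set.mem_ofPred_eq, Finset.Nat.mem_antidiagonalTuple]
    constructor
    · simp only [y]
      rw [← Finset.mul_sum, hxs w hw']
      exact Finset.prod_erase_mul F b hw'
    · intro i
      exact mult_prod (F.erase w) b (fun j hj => hbM j (Finset.mem_of_mem_erase hj)) _ (hxA w hw' i)
  · intro w hw' v hv hwv
    rw [Finset.mem_coe] at hw' hv
    have key : ∀ u ∈ F, N / Nat.gcd (y u 0) N = u := by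
      intro u hu
      have hN : N = (∏ w' ∈ F.erase u, b w') * b u := (Finset.prod_erase_mul F b hu).symm
      have hP : 0 < ∏ w' ∈ F.erase u, b w' :=
        Finset.prod_pos (fun j hj => hb j (Finset.mem_of_mem_erase hj))
      rw [hN]
      simp only [y]
      rw [Nat.gcd_mul_left, Nat.mul_div_mul_left _ _ hP]
      exact (hw u hu).symm
    rw [← key w hw', ← key v hv, hwv]

lemma W_finite {A : Set ℕ} (h0 : 0 ∉ A) {k n0 r : ℕ} (hr : ∀ n, reps A (k + 2) n ≤ r) :
    (W A k n0).Finite := by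
  by_contra hinf
  obtain ⟨t, ht, hc⟩ := Set.Infinite.exists_subset_card_eq hinf (r + 1)
  have := card_le h0 hr t ht
  omega

lemma two_le_of_mem_W {A : Set ℕ} (h0 : 0 ∉ A) {k b : ℕ} {x : Fin (k + 2) → ℕ}
    (hx : ∀ i, x i ∈ A) (hs : ∑ i, x i = b) : 2 ≤ b / Nat.gcd (x 0) b := by
  obtain ⟨h1, h2⟩ := lt_of_rep h0 hx hs 0
  have hg : 0 < Nat.gcd (x 0) b := Nat.gcd_pos_of_pos_left _ h1
  have hd : Nat.gcd (x 0) b ∣ b := Nat.gcd_dvd_right _ _
  have hle : Nat.gcd (x 0) b ≤ x 0 := Nat.gcd_le_left _ h1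
  rw [Nat.le_div_iff_mul_le hg]
  obtain ⟨c, hc⟩ := hd
  have hc2 : 2 ≤ c := by
    by_contra hcc
    have : c = 0 ∨ c = 1 := by omega
    rcases this with h | h
    · rw [h] at hc; omega
    · rw [h, mul_one] at hc; omega
  calc 2 * Nat.gcd (x 0) b ≤ c * Nat.gcd (x 0) b := Nat.mul_le_mul_right _ hc2
    _ = b := by rw [mul_comm]; exact hc.symm

/-- Explicit lower bound at products of pairwise coprime multipliers. -/
theorem coprime_bound {A : Set ℕ} (h0 : 0 ∉ A) {k n0 : ℕ}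
    (hb : ∀ n ∈ mult A, n0 ≤ n → ∃ v : Fin (k + 2) → ℕ, (∀ i, v i ∈ A) ∧ ∑ i, v i = n)
    (F : Finset ℕ) (hF : ∀ b ∈ F, b ∈ mult A ∧ n0 ≤ b)
    (hco : ∀ b ∈ F, ∀ c ∈ F, b ≠ c → Nat.Coprime b c) :
    F.card ≤ reps A (k + 2) (∏ b ∈ F, b) := by
  have hF' : ∀ b ∈ F, ∃ v : Fin (k + 2) → ℕ, (∀ i, v i ∈ A) ∧ ∑ i, v i = b :=
    fun b hbF => hb b (hF b hbF).1 (hF b hbF).2
  choose! x hxA hxs using hF'
  have hbpos : ∀ b ∈ F, 0 < b := fun b hbF => by
    have := (lt_of_rep h0 (hxA b hbF) (hxs b hbF) 0)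
    omega
  let y : ℕ → (Fin (k + 2) → ℕ) := fun w i => (∏ w' ∈ F.erase w, w') * x w i
  have key : ∀ u ∈ F, (∏ b ∈ F, b) / Nat.gcd (y u 0) (∏ b ∈ F, b) = u / Nat.gcd (x u 0) u := by
    intro u hu
    have hN : (∏ b ∈ F, b) = (∏ w' ∈ F.erase u, w') * u := (Finset.prod_erase_mul F _ hu).symm
    have hP : 0 < ∏ w' ∈ F.erase u, w' :=
      Finset.prod_pos (fun j hj => hbpos j (Finset.mem_of_mem_erase hj))
    rw [hN]
    simp only [y]
    rw [Nat.gcd_mul_left, Nat.mul_div_mul_left _ _ hP]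
  unfold reps
  apply Finset.card_le_card_of_injOn y
  · intro w hw'
    rw [Finset.mem_coe] at hw'
    simp only [Finset.coe_filter, Set.mem_ofPred_eq, Finset.Nat.mem_antidiagonalTuple]
    constructor
    · simp only [y]
      rw [← Finset.mul_sum, hxs w hw']
      exact Finset.prod_erase_mul F _ hw'
    · intro i
      exact mult_prod (F.erase w) _ (fun j hj => (hF j (Finset.mem_of_mem_erase hj)).1) _
        (hxA w hw' i)
  · intro w hw' v hv hwv
    rw [Finset.mem_coe] at hw' hv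
    by_contra hne
    have h1 : w / Nat.gcd (x w 0) w = v / Nat.gcd (x v 0) v := by
      rw [← key w hw', ← key v hv, hwv]
    have h2 : w / Nat.gcd (x w 0) w ∣ Nat.gcd w v :=
      Nat.dvd_gcd (Nat.div_dvd_of_dvd (Nat.gcd_dvd_right _ _))
        (h1 ▸ Nat.div_dvd_of_dvd (Nat.gcd_dvd_right _ _))
    rw [hco w hw' v hv hne] at h2
    have h3 := two_le_of_mem_W h0 (hxA w hw') (hxs w hw')
    have h4 := Nat.le_of_dvd one_pos h2
    omega

/-- Infinitely many pairwise coprime multipliers. -/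
theorem coprime_case {A : Set ℕ} (h0 : 0 ∉ A) {k n0 : ℕ}
    (hb : ∀ n ∈ mult A, n0 ≤ n → ∃ v : Fin (k + 2) → ℕ, (∀ i, v i ∈ A) ∧ ∑ i, v i = n)
    (T : Set ℕ) (hT : T ⊆ mult A) (hinf : T.Infinite) (hco : T.Pairwise Nat.Coprime) :
    ∀ r, ∃ n, r < reps A (k + 2) n := by
  by_contra hcon
  push Not at hcon
  obtain ⟨r, hr⟩ := hcon
  have hW := W_finite (n0 := n0) h0 hr
  have hT' : (T \ {n | n < n0}).Infinite := hinf.sdiff (Set.finite_lt_nat n0)
  have hch : ∀ t ∈ T \ {n | n < n0}, ∃ w ∈ W A k n0, 2 ≤ w ∧ w ∣ t := by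
    intro t ht
    have htn : n0 ≤ t := by
      have := ht.2
      simp only [Set.mem_ofPred_eq, not_lt] at this
      exact this
    obtain ⟨x, hx, hs⟩ := hb t (hT ht.1) htn
    exact ⟨t / Nat.gcd (x 0) t, ⟨t, hT ht.1, htn, x, hx, hs, rfl⟩,
      two_le_of_mem_W h0 hx hs, Nat.div_dvd_of_dvd (Nat.gcd_dvd_right _ _)⟩
  choose! f hfW hf2 hfd using hch
  obtain ⟨a, ha, b, hbT, hab, hfab⟩ :=
    hT'.exists_ne_map_eq_of_mapsTo (f := f) (fun t ht => hfW t ht) hW
  have hcop := hco ha.1 hbT.1 hab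
  have h1 : f a ∣ Nat.gcd a b := Nat.dvd_gcd (hfd a ha) (hfab ▸ hfd b hbT)
  rw [hcop] at h1
  have := hf2 a ha
  have := Nat.le_of_dvd one_pos h1
  omega

/-- Finitely many primes. -/
lemma smooth {A : Set ℕ} (h0 : 0 ∉ A) {k n0 r : ℕ} (hr : ∀ n, reps A (k + 2) n ≤ r)
    (hb : ∀ n ∈ mult A, n0 ≤ n → ∃ v : Fin (k + 2) → ℕ, (∀ i, v i ∈ A) ∧ ∑ i, v i = n)
    (C : Finset ℕ) (hC : ∀ a ∈ A, ∃ c ∈ C, ∃ m ∈ mult A, a = c * m) :
    ∃ K : ℕ, ∀ a ∈ A, ∀ p : ℕ, p.Prime → p ∣ a → p ≤ K := by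
  obtain ⟨K1, hK1⟩ := (W_finite (n0 := n0) h0 hr).bddAbove
  let K := max n0 (max K1 (C.sup id))
  have hmul : ∀ m : ℕ, 0 < m → m ∈ mult A → ∀ p : ℕ, p.Prime → p ∣ m → p ≤ K := by
    intro m
    induction m using Nat.strong_induction_on with
    | _ m ih =>
      intro hm0 hm p hp hpm
      by_cases hmn : m < n0
      · have h1 := Nat.le_of_dvd hm0 hpm
        have h2 : n0 ≤ K := le_max_left _ _
        omega
      · push Not at hmn
        obtain ⟨x, hx, hs⟩ := hb m hm hmn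
        obtain ⟨hx1, hx2⟩ := lt_of_rep h0 hx hs 0
        have hg : Nat.gcd (x 0) m * (m / Nat.gcd (x 0) m) = m :=
          Nat.mul_div_cancel' (Nat.gcd_dvd_right _ _)
        rw [← hg] at hpm
        rcases (Nat.Prime.dvd_mul hp).1 hpm with h | h
        · have hpx : p ∣ x 0 := h.trans (Nat.gcd_dvd_left _ _)
          obtain ⟨c, hc, m', hm', hcm⟩ := hC _ (hx 0)
          rw [hcm] at hpx
          have hc0 : 0 < c := Nat.pos_of_ne_zero (fun h => by rw [h, zero_mul] at hcm; omega)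
          have hm'0 : 0 < m' := Nat.pos_of_ne_zero (fun h => by rw [h, mul_zero] at hcm; omega)
          rcases (Nat.Prime.dvd_mul hp).1 hpx with h' | h'
          · have h1 := Nat.le_of_dvd hc0 h'
            have h2 : c ≤ C.sup id := Finset.le_sup (f := id) hc
            have h3 : C.sup id ≤ K := le_trans (le_max_right _ _) (le_max_right _ _)
            omega
          · have hlt : m' < m := by
              calc m' ≤ c * m' := Nat.le_mul_of_pos_left _ hc0
                _ = x 0 := hcm.symm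
                _ < m := hx2
            exact ih m' hlt hm'0 hm' p hp h'
        · have h1 : m / Nat.gcd (x 0) m ≤ K1 := hK1 ⟨m, hm, hmn, x, hx, hs, rfl⟩
          have h2 : 0 < m / Nat.gcd (x 0) m := by
            have := two_le_of_mem_W h0 hx hs
            omega
          have h3 := Nat.le_of_dvd h2 h
          have h4 : K1 ≤ K := le_trans (le_max_left _ _) (le_max_right _ _)
          omega
  refine ⟨K, ?_⟩
  intro a ha p hp hpa
  obtain ⟨c, hc, m, hm, hcm⟩ := hC a ha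
  have ha0 : a ≠ 0 := fun h => h0 (h ▸ ha)
  have hc0 : 0 < c := Nat.pos_of_ne_zero (fun h => by rw [h, zero_mul] at hcm; omega)
  have hm0 : 0 < m := Nat.pos_of_ne_zero (fun h => by rw [h, mul_zero] at hcm; omega)
  rw [hcm] at hpa
  rcases (Nat.Prime.dvd_mul hp).1 hpa with h | h
  · have h1 := Nat.le_of_dvd hc0 h
    have h2 : c ≤ C.sup id := Finset.le_sup (f := id) hc
    have h3 : C.sup id ≤ K := le_trans (le_max_right _ _) (le_max_right _ _)
    omega
  · exact hmul m hm0 hm p hp h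

/-- A set of integers with prime factors at most `K` is not a basis of order `k + 2`. -/
lemma not_basis {A : Set ℕ} (h0 : 0 ∉ A) {k n0 K : ℕ}
    (hb : ∀ n, n0 ≤ n → ∃ v : Fin (k + 2) → ℕ, (∀ i, v i ∈ A) ∧ ∑ i, v i = n)
    (hK : ∀ a ∈ A, ∀ p : ℕ, p.Prime → p ∣ a → p ≤ K) : False := by
  choose! v hvA hvs using hb
  -- the counting bound
  have hcount : ∀ t : ℕ, 2 ^ t + 1 - n0 ≤ ((t + 1) ^ (K + 1)) ^ (k + 2) := by
    intro t
    have hexp : ∀ a ∈ A, a ≤ 2 ^ t → ∀ p, a.factorization p < t + 1 := by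
      intro a ha hat p
      have ha0 : a ≠ 0 := fun h => h0 (h ▸ ha)
      by_cases hp : p.Prime
      · have h1 : p ^ a.factorization p ≤ 2 ^ t :=
          le_trans (Nat.le_of_dvd (Nat.pos_of_ne_zero ha0) (Nat.ordProj_dvd a p)) hat
        have h2 : 2 ^ a.factorization p ≤ p ^ a.factorization p :=
          Nat.pow_le_pow_left hp.two_le _
        have h3 := (Nat.pow_le_pow_iff_right (by norm_num : 1 < 2)).1 (h2.trans h1)
        omega
      · rw [Nat.factorization_eq_zero_of_not_prime a hp]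
        omega
    let g : ℕ → (Fin (k + 2) → Fin (K + 1) → Fin (t + 1)) := fun n i p =>
      if hlt : (v n i).factorization p < t + 1 then ⟨(v n i).factorization p, hlt⟩ else 0
    have hcard : (Finset.Icc n0 (2 ^ t)).card ≤
        (Finset.univ : Finset (Fin (k + 2) → Fin (K + 1) → Fin (t + 1))).card := by
      apply Finset.card_le_card_of_injOn g (fun _ _ => Finset.mem_coe.2 (Finset.mem_univ _))
      intro n hn m hm hnm
      rw [Finset.mem_coe, Finset.mem_Icc] at hn hm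
      have hle : ∀ n, n0 ≤ n → n ≤ 2 ^ t → ∀ i, v n i ≤ 2 ^ t := by
        intro n hn1 hn2 i
        have := (lt_of_rep h0 (hvA n hn1) (hvs n hn1) i).2
        omega
      have heq : v n = v m := by
        funext i
        have hi : ∀ p : Fin (K + 1), (v n i).factorization p = (v m i).factorization p := by
          intro p
          have h1 := congrFun (congrFun hnm i) p
          have e1 := hexp _ (hvA n hn.1 i) (hle n hn.1 hn.2 i) p
          have e2 := hexp _ (hvA m hm.1 i) (hle m hm.1 hm.2 i) p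
          simp only [g, e1, e2, dif_pos, Fin.mk.injEq] at h1
          exact h1
        apply Nat.eq_of_factorization_eq
        · exact fun h => h0 (h ▸ hvA n hn.1 i)
        · exact fun h => h0 (h ▸ hvA m hm.1 i)
        · intro p
          by_cases hp : p ≤ K
          · exact hi ⟨p, by omega⟩
          · have z : ∀ a ∈ A, a.factorization p = 0 := by
              intro a ha
              by_cases hpp : p.Prime
              · apply Nat.factorization_eq_zero_of_not_dvd
                intro hd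
                exact hp (hK a ha p hpp hd)
              · exact Nat.factorization_eq_zero_of_not_prime a hpp
            rw [z _ (hvA n hn.1 i), z _ (hvA m hm.1 i)]
      rw [← hvs n hn.1, ← hvs m hm.1, heq]
    simp only [Nat.card_Icc, Finset.card_univ, Fintype.card_pi, Finset.prod_const,
      Fintype.card_fin] at hcard
    exact hcard
  -- growth
  have hlim := tendsto_pow_const_div_const_pow_of_one_lt ((K + 1) * (k + 2))
    (by norm_num : (1 : ℝ) < 2)
  have hlim2 := (tendsto_pow_const_div_const_pow_of_one_lt 0 (by norm_num : (1 : ℝ) < 2))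
  have h1 : ∀ᶠ t : ℕ in Filter.atTop, (t : ℝ) ^ ((K + 1) * (k + 2)) / 2 ^ t < 1 / 8 :=
    hlim.eventually (gt_mem_nhds (by norm_num))
  have h2 : ∀ᶠ t : ℕ in Filter.atTop, (t : ℝ) ^ 0 / 2 ^ t < 1 / (8 * (n0 + 1)) :=
    hlim2.eventually (gt_mem_nhds (by positivity))
  obtain ⟨t, ht1, ht2, ht3⟩ :=
    (((Filter.tendsto_add_atTop_nat 1).eventually h1).and
      (h2.and (Filter.eventually_ge_atTop 1))).exists
  have hc := hcount t
  have hpos : (0 : ℝ) < 2 ^ t := by positivity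
  have hA : ((t : ℝ) + 1) ^ ((K + 1) * (k + 2)) < 2 ^ t / 4 := by
    have := ht1
    rw [div_lt_iff₀ (by positivity)] at this
    push_cast at this
    calc ((t : ℝ) + 1) ^ ((K + 1) * (k + 2)) < 1 / 8 * 2 ^ (t + 1) := this
      _ = 2 ^ t / 4 := by rw [pow_succ]; ring
  have hB : (n0 : ℝ) < 2 ^ t / 8 := by
    have := ht2
    rw [pow_zero, div_lt_div_iff₀ hpos (by positivity)] at this
    linarith
  have hC : (2 : ℝ) ^ t + 1 - n0 ≤ ((t : ℝ) + 1) ^ ((K + 1) * (k + 2)) := by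
    have h3 : 2 ^ t + 1 ≤ ((t + 1) ^ (K + 1)) ^ (k + 2) + n0 := by omega
    have h4 : ((2 ^ t + 1 : ℕ) : ℝ) ≤ ((((t + 1) ^ (K + 1)) ^ (k + 2) + n0 : ℕ) : ℝ) := by
      exact_mod_cast h3
    push_cast at h4
    rw [← pow_mul] at h4
    linarith
  linarith

end Pool.Agent.H523R3.ETMul
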