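import Mathlib
import Pool.Agent.H378R3.FrameComb

/-!
# Frames in all dimensions

Generalisation of the planar construction of helper378 (`H378R3/FrameComb.lean`) to `d ≥ 4`
coordinate functions.
-/

set_option autoImplicit false

namespace Pool.Agent.H523R3.Frames

open Finset Pool.Agent.H378R3

/-- The set `W` contains a frame for the height functions `F 0, ..., F (d-1)`: members
`a 0, ..., a (d-1)` of `W` such that `a k` is the strictly highest one for `F k`, and every other
point exceeds `a k` in the height `F k` for some `k`. -/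
def FrameD {d n : ℕ} (F : Fin d → Fin n → ℤ) (W : Finset (Fin n)) : Prop :=
  ∃ a : Fin d → Fin n, (∀ k, a k ∈ W) ∧ (∀ k l, l ≠ k → F k (a l) < F k (a k)) ∧
    ∀ v, (∀ k, v ≠ a k) → ∃ k, F k (a k) < F k v

/-- The height functions: `x`, `-x`, `P`, `-P`, and `Z k` for the other indices. -/
def fam {d n : ℕ} (P : Fin n → ℕ) (Z : ℕ → Fin n → ℕ) : Fin d → Fin n → ℤ := fun k i =>
  if (k : ℕ) = 0 then ((i : ℕ) : ℤ) else if (k : ℕ) = 1 then -((i : ℕ) : ℤ)
    else if (k : ℕ) = 2 then (P i : ℤ) else if (k : ℕ) = 3 then -(P i : ℤ) else (Z k i : ℤ)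

lemma FrameD.refine {d n : ℕ} {P P' : Fin n → ℕ} {Z Z' : ℕ → Fin n → ℕ} {W : Finset (Fin n)}
    (h : ∀ i j, P i < P j → P' i < P' j) (hZ : ∀ k i j, Z k i < Z k j → Z' k i < Z' k j)
    (hF : FrameD (fam (d := d) P Z) W) : FrameD (fam (d := d) P' Z') W := by
  obtain ⟨a, ha, hb, hc⟩ := hF
  have key : ∀ (k : Fin d) i j, fam P Z k i < fam P Z k j → fam P' Z' k i < fam P' Z' k j := by
    intro k i j hij
    unfold fam at hij ⊢
    split_ifs at hij ⊢
    · exact hij
    · exact hij
    · have := h i j (by exact_mod_cast hij)
      exact_mod_cast this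
    · have := h j i (by omega)
      omega
    · have := hZ k i j (by exact_mod_cast hij)
      exact_mod_cast this
  refine ⟨a, ha, fun k l hkl => key _ _ _ (hb k l hkl), fun v hv => ?_⟩
  obtain ⟨k, hk⟩ := hc v hv
  exact ⟨k, key _ _ _ hk⟩

/-- Counting functions which match none of finitely many patterns on disjoint small blocks. -/
lemma count_avoid {n m D : ℕ} (hD : 0 < D) {κ : Type*} [DecidableEq κ] (G : Finset κ)
    (B : κ → Finset (Fin n)) (hcard : ∀ k ∈ G, (B k).card ≤ m)
    (hdisj : ∀ k ∈ G, ∀ l ∈ G, k ≠ l → Disjoint (B k) (B l))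
    (f : κ → Fin n → Fin D) :
    ((univ.filter (fun c : Fin n → Fin D => ∀ k ∈ G, ¬ ∀ i ∈ B k, c i = f k i)).card : ℝ) ≤
      D ^ n * (1 - 1 / D ^ m) ^ G.card := by
  classical
  induction G using Finset.induction_on with
  | empty => simp
  | @insert k0 G hk0 ih =>
    have ih' := ih (fun k hk => hcard k (Finset.mem_insert_of_mem hk))
      (fun k hk l hl hkl => hdisj k (Finset.mem_insert_of_mem hk) l (Finset.mem_insert_of_mem hl) hkl)
    set Z := univ.filter (fun c : Fin n → Fin D => ∀ k ∈ G, ¬ ∀ i ∈ B k, c i = f k i) with hZ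
    set Z0 := Z.filter (fun c => ∀ i ∈ B k0, c i = f k0 i) with hZ0
    set Z1 := Z.filter (fun c => ¬ ∀ i ∈ B k0, c i = f k0 i) with hZ1
    have hsplit : Z0.card + Z1.card = Z.card := by
      rw [hZ0, hZ1]; exact Finset.card_filter_add_card_filter_not _
    have hEq : (univ.filter (fun c : Fin n → Fin D =>
        ∀ k ∈ insert k0 G, ¬ ∀ i ∈ B k, c i = f k i)) = Z1 := by
      ext c
      simp only [hZ1, hZ, Finset.mem_filter, Finset.mem_univ, true_and, Finset.forall_mem_insert]
      tauto
    have hB0 : (B k0).card ≤ m := hcard k0 (Finset.mem_insert_self _ _)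
    let o : (Fin n → Fin D) → (Fin n → Fin D) := fun c i => if i ∈ B k0 then f k0 i else c i
    have hmaps : ∀ c ∈ Z, o c ∈ Z0 := by
      intro c hc
      rw [hZ0, Finset.mem_filter]
      refine ⟨?_, ?_⟩
      · rw [hZ, Finset.mem_filter] at hc ⊢
        refine ⟨Finset.mem_univ _, ?_⟩
        intro k hk hmatch
        apply hc.2 k hk
        intro i hi
        have hne : k ≠ k0 := fun h => hk0 (h ▸ hk)
        have hd := hdisj k (Finset.mem_insert_of_mem hk) k0 (Finset.mem_insert_self _ _) hne
        have hi0 : i ∉ B k0 := fun h => (Finset.disjoint_left.mp hd hi h)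
        have := hmatch i hi
        simpa [o, hi0] using this
      · intro i hi
        simp [o, hi]
    have hfib : ∀ b ∈ Z0, (Z.filter (fun c => o c = b)).card ≤ D ^ m := by
      intro b _
      have hinj : Set.InjOn (fun (c : Fin n → Fin D) => (fun i : B k0 => c i))
          (Z.filter (fun c => o c = b) : Finset (Fin n → Fin D)) := by
        intro c hc c' hc' hcc
        simp only [Finset.coe_filter, Set.mem_ofPred_eq] at hc hc'
        funext i
        by_cases hi : i ∈ B k0
        · exact congrFun hcc ⟨i, hi⟩
        · have h1 : o c i = o c' i := by rw [hc.2, hc'.2]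
          simpa [o, hi] using h1
      calc (Z.filter (fun c => o c = b)).card
          ≤ (univ : Finset (B k0 → Fin D)).card :=
            Finset.card_le_card_of_injOn _ (fun _ _ => Finset.mem_univ _) hinj
        _ = D ^ (B k0).card := by simp
        _ ≤ D ^ m := Nat.pow_le_pow_right hD hB0
    have hle : Z.card ≤ D ^ m * Z0.card :=
      Finset.card_le_mul_card_image_of_maps_to hmaps _ hfib
    have hDR : (1 : ℝ) ≤ D := by exact_mod_cast hD
    have hpos : (0 : ℝ) < D ^ m := by positivity
    have hle' : (Z.card : ℝ) / D ^ m ≤ Z0.card := by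
      rw [div_le_iff₀ hpos]
      have : (Z.card : ℝ) ≤ ((D ^ m * Z0.card : ℕ) : ℝ) := by exact_mod_cast hle
      push_cast at this
      linarith
    have hsplit' : (Z0.card : ℝ) + Z1.card = Z.card := by exact_mod_cast hsplit
    rw [hEq, Finset.card_insert_of_notMem hk0, pow_succ]
    have h1 : (1 : ℝ) / D ^ m ≤ 1 := by
      rw [div_le_one hpos]
      exact one_le_pow₀ hDR
    calc (Z1.card : ℝ) ≤ Z.card * (1 - 1 / D ^ m) := by
          have : (Z.card : ℝ) * (1 - 1 / D ^ m) = Z.card - Z.card / D ^ m := by ring
          rw [this]; linarith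
      _ ≤ (D ^ n * (1 - 1 / D ^ m) ^ G.card) * (1 - 1 / D ^ m) := by
          apply mul_le_mul_of_nonneg_right ih'
          linarith
      _ = _ := by ring


section Blocks

variable {n : ℕ} (P : Fin n → ℕ) (m : ℕ)

/-- good blocks: those with at least `d` members of `W` -/
def goodD (d : ℕ) (W : Finset (Fin n)) : Finset ((_ : ℕ) × ℕ) :=
  (univ.image (key P m)).filter (fun k => d ≤ (W.filter (fun i => key P m i = k)).card)

lemma goodD_card (hm : 0 < m) (d : ℕ) (W : Finset (Fin n)) :
    W.card ≤ m * (goodD P m d W).card + (d - 1) * (univ.image (key P m)).card := by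
  classical
  have h1 : W.card = ∑ k ∈ univ.image (key P m), (W.filter (fun i => key P m i = k)).card := by
    apply Finset.card_eq_sum_card_fiberwise
    intro i _
    simp
  rw [h1]
  calc ∑ k ∈ univ.image (key P m), (W.filter (fun i => key P m i = k)).card
      ≤ ∑ k ∈ univ.image (key P m),
          ((if d ≤ (W.filter (fun i => key P m i = k)).card then m else 0) + (d - 1)) := by
        apply Finset.sum_le_sum
        intro k _
        split_ifs with h
        · have : (W.filter (fun i => key P m i = k)).card ≤ (blk P m k).card := by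
            apply Finset.card_le_card
            intro i hi
            simp only [Finset.mem_filter] at hi
            simp [blk, hi.2]
          have h2 := blk_card P m hm k
          omega
        · omega
    _ = m * (goodD P m d W).card + (d - 1) * (univ.image (key P m)).card := by
        rw [Finset.sum_add_distrib, ← Finset.sum_filter]
        simp [goodD, mul_comm]

/-- the letter given to the `j`-th member of a frame -/
def ltr (d j : ℕ) : ℕ := if j ≤ 1 then 2 else if j = 2 then d - 1 else if j = 3 then 1 else j - 1

lemma ltr_lt {d j : ℕ} (hd : 4 ≤ d) (hj : j < d) : ltr d j < d := by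
  unfold ltr; split_ifs <;> omega

/-- refinement of the code `P` by the letters `c` -/
def refP (d : ℕ) (P : Fin n → ℕ) (c : Fin n → Fin d) : Fin n → ℕ := fun i => d * P i + (c i : ℕ)

/-- refinement of the heights `Z` by the letters `c` -/
def refZ (d : ℕ) (Z : ℕ → Fin n → ℕ) (c : Fin n → Fin d) : ℕ → Fin n → ℕ := fun k i =>
  2 * Z k i + (if (c i : ℕ) = ltr d k then 1 else 0)

lemma goodD_frame {d : ℕ} (hd : 4 ≤ d) (Z : ℕ → Fin n → ℕ)
    (hZ : ∀ k i j, P i = P j → Z k i = Z k j) (W : Finset (Fin n)) (k : (_ : ℕ) × ℕ)
    (hk : k ∈ goodD P m d W) :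
    ∃ f : Fin n → Fin d, ∀ c : Fin n → Fin d, (∀ i ∈ blk P m k, c i = f i) →
      FrameD (fam (d := d) (refP d P c) (refZ d Z c)) W := by
  classical
  simp only [goodD, Finset.mem_filter] at hk
  obtain ⟨_, h4⟩ := hk
  let e := Finset.orderEmbOfCardLe _ h4
  have he : ∀ t, e t ∈ W.filter (fun i => key P m i = k) := fun t =>
    Finset.orderEmbOfCardLe_mem _ h4 t
  have heW : ∀ t, e t ∈ W := fun t => (Finset.mem_filter.mp (he t)).1
  have heB : ∀ t, e t ∈ blk P m k := fun t => by
    simp only [blk, Finset.mem_filter, Finset.mem_univ, true_and]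
    exact (Finset.mem_filter.mp (he t)).2
  have hP : ∀ t, P (e t) = k.1 := fun t => by
    have := (Finset.mem_filter.mp (he t)).2
    rw [← this]; rfl
  -- cyclic shift of the indices
  let sh : Fin d → Fin d := fun t => if h : (t : ℕ) = 0 then ⟨d - 1, by omega⟩ else ⟨t - 1, by omega⟩
  have hsh0 : ∀ t : Fin d, (t : ℕ) = 0 → (sh t : ℕ) = d - 1 := fun t ht => by simp [sh, ht]
  have hsh1 : ∀ t : Fin d, (t : ℕ) ≠ 0 → (sh t : ℕ) = t - 1 := fun t ht => by simp [sh, ht]
  have hshinj : Function.Injective sh := by
    intro s t hst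
    have h1 : (sh s : ℕ) = sh t := by rw [hst]
    apply Fin.ext
    by_cases hs : (s : ℕ) = 0 <;> by_cases ht : (t : ℕ) = 0
    · omega
    · rw [hsh0 s hs, hsh1 t ht] at h1; omega
    · rw [hsh1 s hs, hsh0 t ht] at h1; omega
    · rw [hsh1 s hs, hsh1 t ht] at h1; omega
  set a : Fin d → Fin n := fun t => e (sh t) with ha
  have hainj : Function.Injective a := e.injective.comp hshinj
  refine ⟨Function.extend a (fun t => ⟨ltr d t, ltr_lt hd t.isLt⟩) (fun _ => ⟨0, by omega⟩), ?_⟩
  intro c hc
  have ca : ∀ t, (c (a t) : ℕ) = ltr d t := by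
    intro t
    rw [hc _ (heB _), hainj.extend_apply]
  have cn : ∀ v ∈ blk P m k, (∀ t, v ≠ a t) → (c v : ℕ) = 0 := by
    intro v hv hva
    rw [hc _ hv, Function.extend_apply']
    rintro ⟨t, ht⟩
    exact hva t ht.symm
  have hPa : ∀ t, P (a t) = k.1 := fun t => hP _
  have hle : ∀ s t : Fin d, (s : ℕ) < t → e s < e t := fun s t hst => e.strictMono (by exact hst)
  refine ⟨a, fun t => heW _, ?_, ?_⟩
  · intro t l hlt
    have hlt' : (l : ℕ) ≠ t := fun h => hlt (Fin.ext h)
    unfold fam
    split_ifs with h0 h1 h2 h3
    · have : e (sh l) < e (sh t) := by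
        apply hle
        rw [hsh0 t h0, hsh1 l (by omega)]
        omega
      have h' : ((a l : Fin n) : ℕ) < a t := this
      exact_mod_cast h'
    · have : e (sh t) < e (sh l) := by
        apply hle
        rw [hsh1 t (by omega), h1]
        by_cases hl : (l : ℕ) = 0
        · rw [hsh0 l hl]; omega
        · rw [hsh1 l hl]; omega
      have h' : ((a t : Fin n) : ℕ) < a l := this
      omega
    · have e1 : refP d P c (a l) < refP d P c (a t) := by
        unfold refP
        rw [hPa, hPa, ca, ca, h2]
        have hl := l.isLt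
        unfold ltr
        split_ifs <;> omega
      exact_mod_cast e1
    · have e1 : refP d P c (a t) < refP d P c (a l) := by
        unfold refP
        rw [hPa, hPa, ca, ca, h3]
        have hl := l.isLt
        unfold ltr
        split_ifs <;> omega
      omega
    · have e1 : refZ d Z c t (a l) < refZ d Z c t (a t) := by
        unfold refZ
        rw [hZ t (a l) (a t) (by rw [hPa, hPa]), ca, ca]
        have hne : ltr d l ≠ ltr d t := by
          have hl := l.isLt
          have ht := t.isLt
          unfold ltr
          split_ifs <;> omega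
        rw [if_neg hne, if_pos rfl]
        omega
      exact_mod_cast e1
  · intro v hv
    by_cases hv1 : v < a ⟨1, by omega⟩
    · refine ⟨⟨1, by omega⟩, ?_⟩
      have h' : (v : ℕ) < a ⟨1, by omega⟩ := hv1
      simp only [fam, one_ne_zero, if_false, if_true]
      omega
    · by_cases hv0 : a ⟨0, by omega⟩ < v
      · refine ⟨⟨0, by omega⟩, ?_⟩
        have h' : ((a ⟨0, by omega⟩ : Fin n) : ℕ) < v := hv0
        simp only [fam, if_true]
        exact_mod_cast h'
      · have h1 : a ⟨1, by omega⟩ < v := lt_of_le_of_ne (not_lt.mp hv1) (Ne.symm (hv _))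
        have h0 : v < a ⟨0, by omega⟩ := lt_of_le_of_ne (not_lt.mp hv0) (hv _)
        have hcv : (c v : ℕ) < d := (c v).isLt
        have l2 : refP d P c (a ⟨2, by omega⟩) = d * k.1 + (d - 1) := by
          unfold refP; rw [hPa, ca]; simp [ltr]
        have l3 : refP d P c (a ⟨3, by omega⟩) = d * k.1 + 1 := by
          unfold refP; rw [hPa, ca]; simp [ltr]
        rcases lt_trichotomy (P v) k.1 with h | h | h
        · refine ⟨⟨3, by omega⟩, ?_⟩
          have e1 : refP d P c v < refP d P c (a ⟨3, by omega⟩) := by
            rw [l3]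
            unfold refP
            have : d * (P v + 1) ≤ d * k.1 := Nat.mul_le_mul_left _ h
            rw [mul_add] at this
            omega
          have : fam (d := d) (refP d P c) (refZ d Z c) ⟨3, by omega⟩ =
              fun i => -(refP d P c i : ℤ) := by
            funext i; simp [fam]
          rw [this]
          simp only
          omega
        · have hlB : v ∈ blk P m k := by
            apply blk_convex P m (heB _) (heB _) h1 h0
            rw [h, hP]
          have cl := cn v hlB hv
          refine ⟨⟨3, by omega⟩, ?_⟩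
          have e1 : refP d P c v < refP d P c (a ⟨3, by omega⟩) := by
            rw [l3]
            unfold refP
            rw [cl, h]
            omega
          have : fam (d := d) (refP d P c) (refZ d Z c) ⟨3, by omega⟩ =
              fun i => -(refP d P c i : ℤ) := by
            funext i; simp [fam]
          rw [this]
          simp only
          omega
        · refine ⟨⟨2, by omega⟩, ?_⟩
          have e1 : refP d P c (a ⟨2, by omega⟩) < refP d P c v := by
            rw [l2]
            unfold refP
            have : d * (k.1 + 1) ≤ d * P v := Nat.mul_le_mul_left _ h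
            rw [mul_add] at this
            omega
          have : fam (d := d) (refP d P c) (refZ d Z c) ⟨2, by omega⟩ =
              fun i => (refP d P c i : ℤ) := by
            funext i; simp [fam]
          rw [this]
          simp only
          exact_mod_cast e1

end Blocks

end Pool.Agent.H523R3.Frames
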