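import Mathlib
import Pool.Agent.H523R3.FrameComb

set_option autoImplicit false

namespace Pool.Agent.H523R3.Frames

open Finset Pool.Agent.H378R3

lemma base_bounds {d m : ℕ} (hd : 4 ≤ d) :
    (0 : ℝ) ≤ 1 - 1 / (d : ℝ) ^ m ∧ (1 : ℝ) - 1 / (d : ℝ) ^ m < 1 := by
  have hdR : (1 : ℝ) ≤ d := by exact_mod_cast (by omega : 1 ≤ d)
  have hpos : (0 : ℝ) < (d : ℝ) ^ m := by positivity
  constructor
  · have : (1 : ℝ) / (d : ℝ) ^ m ≤ 1 := by
      rw [div_le_one hpos]
      exact one_le_pow₀ hdR
    linarith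
  · have : (0 : ℝ) < 1 / (d : ℝ) ^ m := by positivity
    linarith

open Classical in
/-- the letters prescribed on a good block -/
noncomputable def pat {n : ℕ} {d : ℕ} (hd : 4 ≤ d) (P : Fin n → ℕ) (m : ℕ) (Z : ℕ → Fin n → ℕ)
    (hZ : ∀ k i j, P i = P j → Z k i = Z k j) (W : Finset (Fin n)) (k : (_ : ℕ) × ℕ) :
    Fin n → Fin d := fun i =>
  if hk : k ∈ goodD P m d W then (goodD_frame P m hd Z hZ W k hk).choose i else ⟨0, by omega⟩

open Classical in
/-- One step of the derandomised construction. -/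
lemma stepD {n m q h R d : ℕ} (hd : 4 ≤ d) (hm : m = 2 * d * q) (hq : 0 < q)
    (hn : n = 8 * d * q ^ 2 * h)
    (hR : R ≤ h) (P : Fin n → ℕ) (hP : ∀ i, P i < R) (Z : ℕ → Fin n → ℕ)
    (hZ : ∀ k i j, P i = P j → Z k i = Z k j)
    (𝓦 : Finset (Finset (Fin n))) (h𝓦 : ∀ W ∈ 𝓦, n ≤ q * W.card) :
    ∃ c : Fin n → Fin d,
      ((𝓦.filter (fun W => ¬ ∃ k ∈ goodD P m d W, ∀ i ∈ blk P m k,
          c i = pat hd P m Z hZ W k i)).card : ℝ) ≤
        𝓦.card * (1 - 1 / (d : ℝ) ^ m) ^ h := by
  have hmpos : 0 < m := by rw [hm]; positivity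
  by_contra hcon
  rw [not_exists] at hcon
  set f : Finset (Fin n) → ((_ : ℕ) × ℕ) → Fin n → Fin d := fun W k => pat hd P m Z hZ W k with hf
  obtain ⟨hbase0, hbase1'⟩ := base_bounds (m := m) hd
  have hbase1 := hbase1'.le
  have hW : ∀ W ∈ 𝓦, ((univ.filter (fun c : Fin n → Fin d => ∀ k ∈ goodD P m d W,
      ¬ ∀ i ∈ blk P m k, c i = f W k i)).card : ℝ) ≤ (d : ℝ) ^ n * (1 - 1 / (d : ℝ) ^ m) ^ h := by
    intro W hW
    have h1 := count_avoid (by omega : 0 < d) (goodD P m d W) (blk P m)
      (fun k _ => blk_card P m hmpos k)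
      (by
        intro k _ l _ hkl
        rw [Finset.disjoint_left]
        intro i hi hi'
        simp only [blk, Finset.mem_filter, Finset.mem_univ, true_and] at hi hi'
        exact hkl (hi.symm.trans hi')) (f W)
    refine h1.trans ?_
    apply mul_le_mul_of_nonneg_left _ (by positivity)
    apply pow_le_pow_of_le_one hbase0 hbase1
    -- `h ≤ #good`
    have hg := goodD_card P m hmpos d W
    have hkeys := keys_card P m hmpos hP
    have hWc := h𝓦 W hW
    obtain ⟨d', rfl⟩ : ∃ d', d = d' + 1 := ⟨d - 1, by omega⟩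
    simp only [Nat.add_sub_cancel] at hg
    set g := (goodD P m (d' + 1) W).card with hgdef
    set K := (univ.image (key P m)).card with hKdef
    have e1 : m * W.card ≤ m * (m * g) + d' * (m * K) := by
      calc m * W.card ≤ m * (m * g + d' * K) := Nat.mul_le_mul_left _ hg
        _ = m * (m * g) + d' * (m * K) := by ring
    have e2 : m * W.card ≤ m * (m * g) + d' * (n + m * R) :=
      e1.trans (Nat.add_le_add_left (Nat.mul_le_mul_left _ hkeys) _)
    have e3 : 2 * (d' + 1) * n ≤ m * W.card := by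
      calc 2 * (d' + 1) * n ≤ 2 * (d' + 1) * (q * W.card) := Nat.mul_le_mul_left _ hWc
        _ = m * W.card := by rw [hm]; ring
    have e4 : m * (m * h) + d' * (n + m * R) ≤ 2 * (d' + 1) * n := by
      have hq1 : 1 ≤ q := hq
      have hqR : q * R ≤ q ^ 2 * h := by
        calc q * R ≤ q * h := Nat.mul_le_mul_left _ hR
          _ ≤ q ^ 2 * h := by
            apply Nat.mul_le_mul_right
            nlinarith
      have e5 : m * (m * h) = 4 * (d' + 1) ^ 2 * (q ^ 2 * h) := by rw [hm]; ring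
      have e6 : d' * (m * R) ≤ 2 * (d' + 1) ^ 2 * (q ^ 2 * h) := by
        calc d' * (m * R) = 2 * (d' + 1) * d' * (q * R) := by rw [hm]; ring
          _ ≤ 2 * (d' + 1) * d' * (q ^ 2 * h) := Nat.mul_le_mul_left _ hqR
          _ ≤ 2 * (d' + 1) ^ 2 * (q ^ 2 * h) := by
            apply Nat.mul_le_mul_right
            nlinarith
      have e7 : n = 8 * (d' + 1) * (q ^ 2 * h) := by rw [hn]; ring
      have e8 : (d' + 2) * n = 8 * (d' + 1) * (d' + 2) * (q ^ 2 * h) := by rw [e7]; ring
      have e9 : 6 * (d' + 1) ^ 2 * (q ^ 2 * h) ≤ 8 * (d' + 1) * (d' + 2) * (q ^ 2 * h) := by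
        apply Nat.mul_le_mul_right
        nlinarith
      have e10 : 2 * (d' + 1) * n = (d' + 2) * n + d' * n := by ring
      have e11 : d' * (n + m * R) = d' * n + d' * (m * R) := by ring
      have e12 : 6 * (d' + 1) ^ 2 * (q ^ 2 * h) = 4 * (d' + 1) ^ 2 * (q ^ 2 * h) +
        2 * (d' + 1) ^ 2 * (q ^ 2 * h) := by ring
      omega
    have e5 : m * (m * h) ≤ m * (m * g) := by omega
    exact Nat.le_of_mul_le_mul_left (Nat.le_of_mul_le_mul_left e5 hmpos) hmpos
  -- double counting
  have hdc : (∑ c : Fin n → Fin d, ((𝓦.filter (fun W => ¬ ∃ k ∈ goodD P m d W, ∀ i ∈ blk P m k,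
      c i = f W k i)).card : ℝ)) =
      ∑ W ∈ 𝓦, ((univ.filter (fun c : Fin n → Fin d => ∀ k ∈ goodD P m d W,
      ¬ ∀ i ∈ blk P m k, c i = f W k i)).card : ℝ) := by
    have : ∀ c : Fin n → Fin d, ((𝓦.filter (fun W => ¬ ∃ k ∈ goodD P m d W, ∀ i ∈ blk P m k,
      c i = f W k i)).card : ℝ) = ∑ W ∈ 𝓦, (if (∀ k ∈ goodD P m d W,
      ¬ ∀ i ∈ blk P m k, c i = f W k i) then (1 : ℝ) else 0) := by
      intro c
      rw [Finset.card_filter]
      push_cast
      apply Finset.sum_congr rfl
      intro W _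
      congr 1
      simp only [not_exists, not_and]
    simp_rw [this]
    rw [Finset.sum_comm]
    apply Finset.sum_congr rfl
    intro W _
    rw [Finset.card_filter]
    push_cast
    rfl
  have hup : (∑ c : Fin n → Fin d, ((𝓦.filter (fun W => ¬ ∃ k ∈ goodD P m d W, ∀ i ∈ blk P m k,
      c i = f W k i)).card : ℝ)) ≤ (d : ℝ) ^ n * (𝓦.card * (1 - 1 / (d : ℝ) ^ m) ^ h) := by
    rw [hdc]
    calc _ ≤ ∑ W ∈ 𝓦, ((d : ℝ) ^ n * (1 - 1 / (d : ℝ) ^ m) ^ h) := Finset.sum_le_sum hW
      _ = _ := by rw [Finset.sum_const, nsmul_eq_mul]; ring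
  have hlow : (d : ℝ) ^ n * (𝓦.card * (1 - 1 / (d : ℝ) ^ m) ^ h) <
      ∑ c : Fin n → Fin d, ((𝓦.filter (fun W => ¬ ∃ k ∈ goodD P m d W, ∀ i ∈ blk P m k,
      c i = f W k i)).card : ℝ) := by
    have h1 : (∑ c : Fin n → Fin d, ((𝓦.card : ℝ) * (1 - 1 / (d : ℝ) ^ m) ^ h)) =
        (d : ℝ) ^ n * (𝓦.card * (1 - 1 / (d : ℝ) ^ m) ^ h) := by
      rw [Finset.sum_const, nsmul_eq_mul]
      simp
    rw [← h1]
    apply Finset.sum_lt_sum_of_nonempty
    · exact ⟨fun _ => ⟨0, by omega⟩, Finset.mem_univ _⟩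
    · intro c _
      exact not_le.mp (hcon c)
  linarith

open Classical in
/-- The family of large sets which contain no frame. -/
noncomputable def badD {n : ℕ} (d q : ℕ) (P : Fin n → ℕ) (Z : ℕ → Fin n → ℕ) :
    Finset (Finset (Fin n)) :=
  univ.filter (fun W => n ≤ q * W.card ∧ ¬ FrameD (fam (d := d) P Z) W)

lemma iterateD {n m q h d : ℕ} (hd : 4 ≤ d) (hm : m = 2 * d * q) (hq : 0 < q)
    (hn : n = 8 * d * q ^ 2 * h) :
    ∀ t : ℕ, d ^ t ≤ d * h → ∃ (P : Fin n → ℕ) (Z : ℕ → Fin n → ℕ), (∀ i, P i < d ^ t) ∧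
      (∀ k i j, P i = P j → Z k i = Z k j) ∧
      ((badD d q P Z).card : ℝ) ≤ 2 ^ n * ((1 - 1 / (d : ℝ) ^ m) ^ h) ^ t := by
  classical
  intro t
  induction t with
  | zero =>
    intro _
    refine ⟨fun _ => 0, fun _ _ => 0, by simp, by simp, ?_⟩
    have : (badD d q (fun _ : Fin n => 0) (fun _ _ => 0)).card ≤ 2 ^ n := by
      calc _ ≤ (univ : Finset (Finset (Fin n))).card := Finset.card_le_card (Finset.subset_univ _)
        _ = 2 ^ n := by simp
    simpa using (by exact_mod_cast this :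
      ((badD d q (fun _ : Fin n => 0) (fun _ _ => 0)).card : ℝ) ≤ 2 ^ n)
  | succ t ih =>
    intro ht
    have ht' : d ^ t ≤ h := by
      rw [pow_succ, mul_comm] at ht
      exact Nat.le_of_mul_le_mul_left ht (by omega)
    obtain ⟨P, Z, hP, hZ, hbad⟩ := ih (by nlinarith)
    obtain ⟨c, hc⟩ := stepD hd hm hq hn ht' P hP Z hZ (badD d q P Z) (by
      intro W hW
      simp only [badD, Finset.mem_filter, Finset.mem_univ, true_and] at hW
      exact hW.1)
    have hPmono : ∀ i j, P i < P j → refP d P c i < refP d P c j := by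
      intro i j hij
      have h1 : (c i : ℕ) < d := (c i).isLt
      unfold refP
      have : d * (P i + 1) ≤ d * P j := Nat.mul_le_mul_left _ hij
      rw [mul_add] at this
      omega
    refine ⟨refP d P c, refZ d Z c, ?_, ?_, ?_⟩
    · intro i
      have h1 := hP i
      have h2 : (c i : ℕ) < d := (c i).isLt
      rw [pow_succ]
      unfold refP
      have : d * (P i + 1) ≤ d * d ^ t := Nat.mul_le_mul_left _ h1
      rw [mul_add] at this
      rw [mul_comm (d ^ t) d]
      omega
    · intro k i j hij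
      have hPij : P i = P j := by
        rcases lt_trichotomy (P i) (P j) with hlt | heq | hlt
        · exact absurd hij (hPmono i j hlt).ne
        · exact heq
        · exact absurd hij (hPmono j i hlt).ne'
      have hcij : (c i : ℕ) = c j := by
        unfold refP at hij
        rw [hPij] at hij
        omega
      unfold refZ
      rw [hZ k i j hPij, hcij]
    · have hsub : badD d q (refP d P c) (refZ d Z c) ⊆
          (badD d q P Z).filter (fun W => ¬ ∃ k ∈ goodD P m d W, ∀ i ∈ blk P m k,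
          c i = pat hd P m Z hZ W k i) := by
        intro W hW
        simp only [badD, Finset.mem_filter, Finset.mem_univ, true_and] at hW ⊢
        refine ⟨⟨hW.1, ?_⟩, ?_⟩
        · intro hF
          apply hW.2
          apply hF.refine hPmono
          intro k i j hij
          unfold refZ
          split_ifs <;> omega
        · rintro ⟨k, hk, hmatch⟩
          apply hW.2
          apply (goodD_frame P m hd Z hZ W k hk).choose_spec c
          intro i hi
          have := hmatch i hi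
          rw [pat, dif_pos hk] at this
          exact this
      have hcard : ((badD d q (refP d P c) (refZ d Z c)).card : ℝ) ≤
          (((badD d q P Z).filter (fun W => ¬ ∃ k ∈ goodD P m d W, ∀ i ∈ blk P m k,
          c i = pat hd P m Z hZ W k i)).card : ℝ) := by
        exact_mod_cast Finset.card_le_card hsub
      refine hcard.trans (hc.trans ?_)
      rw [pow_succ, ← mul_assoc]
      apply mul_le_mul_of_nonneg_right hbad
      exact pow_nonneg (base_bounds (m := m) hd).1 _

/-- **Combinatorial core.**  For every `d ≥ 4` and `q` there are arbitrarily large point sets with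
`d` height functions (the first two being opposite to each other and injective) in which every
subset of density at least `1/q` contains a frame. -/
theorem exists_framesD {d : ℕ} (hd : 4 ≤ d) (q : ℕ) (hq : 0 < q) (N : ℕ) :
    ∃ n : ℕ, N ≤ n ∧ ∃ F : Fin d → Fin n → ℤ,
      (∀ i j : Fin n, i < j → F ⟨0, by omega⟩ i < F ⟨0, by omega⟩ j) ∧
      (∀ i j : Fin n, i < j → F ⟨1, by omega⟩ j < F ⟨1, by omega⟩ i) ∧
      ∀ W : Finset (Fin n), n ≤ q * W.card → FrameD F W := by
  classical
  set m := 2 * d * q with hm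
  set b : ℝ := 1 - 1 / (d : ℝ) ^ m with hb
  obtain ⟨hb0, hb1⟩ := base_bounds (m := m) hd
  obtain ⟨K, hK⟩ := exists_pow_lt_of_lt_one
    (show (0 : ℝ) < 1 / 2 ^ (8 * d * q ^ 2) by positivity) hb1
  set h := d ^ K + N with hh
  have hh1 : 1 ≤ h := by
    have : 1 ≤ d ^ K := Nat.one_le_pow _ _ (by omega)
    omega
  set n := 8 * d * q ^ 2 * h with hn
  obtain ⟨P, Z, hP, hZ, hbad⟩ := iterateD (n := n) (m := m) (q := q) (h := h) hd rfl hq rfl K
    (by nlinarith)
  have hlt : ((badD d q P Z).card : ℝ) < 1 := by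
    refine lt_of_le_of_lt hbad ?_
    have e1 : (2 : ℝ) ^ n * (b ^ h) ^ K = ((2 ^ (8 * d * q ^ 2)) * b ^ K) ^ h := by
      rw [mul_pow, ← pow_mul, ← pow_mul, ← pow_mul, hn, mul_comm h K]
    rw [e1]
    have e2 : (2 : ℝ) ^ (8 * d * q ^ 2) * b ^ K < 1 := by
      rw [lt_div_iff₀ (by positivity)] at hK
      linarith
    exact pow_lt_one₀ (by positivity) e2 (by omega)
  have hempty : badD d q P Z = ∅ := by
    rw [← Finset.card_eq_zero]
    have : (badD d q P Z).card < 1 := by exact_mod_cast hlt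
    omega
  refine ⟨n, ?_, fam P Z, ?_, ?_, ?_⟩
  · have : 1 ≤ 8 * d * q ^ 2 := by
      have : 0 < 8 * d * q ^ 2 := by positivity
      omega
    calc N ≤ h := by rw [hh]; exact Nat.le_add_left _ _
      _ = 1 * h := by ring
      _ ≤ n := Nat.mul_le_mul_right _ this
  · intro i j hij
    have h' : (i : ℕ) < j := hij
    simp only [fam, if_true]
    exact_mod_cast h'
  · intro i j hij
    have h' : (i : ℕ) < j := hij
    simp only [fam, one_ne_zero, if_false, if_true]
    omega
  · intro W hW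
    by_contra hF
    have : W ∈ badD d q P Z := by
      simp only [badD, Finset.mem_filter, Finset.mem_univ, true_and]
      exact ⟨hW, hF⟩
    rw [hempty] at this
    simp at this

end Pool.Agent.H523R3.Frames
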