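import Mathlib
import Pool.Agent.H523R3.FrameIter

/-!
# Geometric realisation of frames as facets of simplicial polytopes

Generalisation to dimension `d` of `H378R3/FrameGeom.lean` (helper378).
-/

set_option autoImplicit false

namespace Pool.Agent.H523R3.Frames

open Finset

/-- A nearly-identity nonnegative `d × d` matrix maps some vector with entries `≥ 1/2` to `1`. -/
lemma exists_solutionD {d : ℕ} (hd : 0 < d) (G : Matrix (Fin d) (Fin d) ℝ) (hd1 : ∀ j, G j j = 1)
    (h0 : ∀ j k, j ≠ k → 0 ≤ G j k) (h1 : ∀ j k, j ≠ k → G j k ≤ 1 / (4 * d)) :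
    ∃ z : Fin d → ℝ, (∀ j, ∑ k, G j k * z k = 1) ∧ ∀ k, 1 / 2 ≤ z k := by
  classical
  have hdR : (0 : ℝ) < d := by exact_mod_cast hd
  have hsum : ∀ (k : Fin d) (c : ℝ), 0 ≤ c → ∑ j ∈ univ.erase k, (1 / (4 * d) * c : ℝ) ≤ 1 / 4 * c := by
    intro k c hc
    rw [Finset.sum_const, Finset.card_erase_of_mem (Finset.mem_univ _), Finset.card_univ,
      Fintype.card_fin, nsmul_eq_mul]
    have h2 : ((d - 1 : ℕ) : ℝ) ≤ d := by exact_mod_cast Nat.sub_le _ _
    calc ((d - 1 : ℕ) : ℝ) * (1 / (4 * d) * c) ≤ d * (1 / (4 * d) * c) := by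
          apply mul_le_mul_of_nonneg_right h2
          positivity
      _ = 1 / 4 * c := by field_simp
  have hdet : G.det ≠ 0 := by
    apply det_ne_zero_of_sum_row_lt_diag
    intro k
    rw [hd1 k]
    calc ∑ j ∈ univ.erase k, ‖G k j‖ ≤ ∑ j ∈ univ.erase k, (1 / (4 * d) * 1 : ℝ) := by
          apply Finset.sum_le_sum
          intro j hj
          have hne : k ≠ j := (Finset.ne_of_mem_erase hj).symm
          rw [Real.norm_eq_abs, abs_of_nonneg (h0 k j hne), mul_one]
          exact h1 k j hne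
      _ ≤ 1 / 4 * 1 := hsum k 1 (by norm_num)
      _ < ‖(1 : ℝ)‖ := by norm_num
  have hunit : IsUnit G.det := isUnit_iff_ne_zero.mpr hdet
  set z : Fin d → ℝ := G⁻¹.mulVec (fun _ => 1) with hz
  have hGz : G.mulVec z = fun _ => 1 := by
    rw [hz, Matrix.mulVec_mulVec, Matrix.mul_nonsing_inv _ hunit, Matrix.one_mulVec]
  have hrow : ∀ j, ∑ k, G j k * z k = 1 := by
    intro j
    have := congrFun hGz j
    simpa [Matrix.mulVec, dotProduct] using this
  refine ⟨z, hrow, ?_⟩
  haveI : Nonempty (Fin d) := ⟨⟨0, hd⟩⟩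
  obtain ⟨k0, hk0⟩ := Finite.exists_max (fun k => |z k|)
  have hsplit : ∀ j, z j + ∑ k ∈ univ.erase j, G j k * z k = 1 := by
    intro j
    have := hrow j
    rw [← Finset.add_sum_erase _ _ (Finset.mem_univ j), hd1 j, one_mul] at this
    exact this
  have hbound : ∀ j, |∑ k ∈ univ.erase j, G j k * z k| ≤ 1 / 4 * |z k0| := by
    intro j
    calc |∑ k ∈ univ.erase j, G j k * z k| ≤ ∑ k ∈ univ.erase j, |G j k * z k| :=
          Finset.abs_sum_le_sum_abs _ _
      _ ≤ ∑ k ∈ univ.erase j, (1 / (4 * d) * |z k0|) := by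
          apply Finset.sum_le_sum
          intro k hk
          have hne : j ≠ k := (Finset.ne_of_mem_erase hk).symm
          rw [abs_mul, abs_of_nonneg (h0 j k hne)]
          exact mul_le_mul (h1 j k hne) (hk0 k) (abs_nonneg _) (by positivity)
      _ ≤ 1 / 4 * |z k0| := hsum j _ (abs_nonneg _)
  have hZ : |z k0| ≤ 4 / 3 := by
    have h := hsplit k0
    have hb := hbound k0
    have : |z k0| ≤ 1 + 1 / 4 * |z k0| := by
      have e : z k0 = 1 - ∑ k ∈ univ.erase k0, G k0 k * z k := by linarith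
      calc |z k0| = |1 - ∑ k ∈ univ.erase k0, G k0 k * z k| := by rw [← e]
        _ ≤ |(1 : ℝ)| + |∑ k ∈ univ.erase k0, G k0 k * z k| := abs_sub _ _
        _ ≤ 1 + 1 / 4 * |z k0| := by rw [abs_one]; linarith
    linarith
  intro j
  have h := hsplit j
  have hb := hbound j
  have := (abs_le.mp hb).2
  linarith

/-- Frames give supporting hyperplanes. -/
lemma frame_facetD {d n : ℕ} (hd : 0 < d) (F : Fin d → Fin n → ℤ) (cd : Fin d → Fin n → ℝ)
    (hpos : ∀ k i, 0 < cd k i)
    (hF : ∀ k i j, F k i < F k j → 4 * d * cd k i ≤ cd k j)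
    (a : Fin d → Fin n) (ha : ∀ k l, l ≠ k → F k (a l) < F k (a k))
    (hv : ∀ v, (∀ k, v ≠ a k) → ∃ k, F k (a k) < F k v) :
    ∃ e : Fin d → ℝ,
      (∀ k, ∑ l, e l * cd l (a k) = 1) ∧
      (∀ i, (∀ k, i ≠ a k) → 1 < ∑ k, e k * cd k i) := by
  classical
  have hdR : (1 : ℝ) ≤ d := by exact_mod_cast hd
  obtain ⟨z, hz1, hz2⟩ := exists_solutionD hd (fun j k => cd k (a j) / cd k (a k))
    (fun j => div_self (hpos _ _).ne')
    (fun j k _ => (div_pos (hpos _ _) (hpos _ _)).le)
    (fun j k hjk => by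
      rw [div_le_div_iff₀ (hpos _ _) (by positivity)]
      have := hF k _ _ (ha k j hjk)
      linarith)
  have hzpos : ∀ k, 0 < z k := fun k => by have := hz2 k; linarith
  refine ⟨fun k => z k / cd k (a k), ?_, ?_⟩
  · intro k
    rw [← hz1 k]
    apply Finset.sum_congr rfl
    intro l _
    ring
  · intro i hi
    obtain ⟨k, hk⟩ := hv i hi
    have hki := hF k _ _ hk
    have h1 : z k / cd k (a k) * cd k i ≤ ∑ k, z k / cd k (a k) * cd k i := by
      apply Finset.single_le_sum (f := fun k => z k / cd k (a k) * cd k i)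
      · intro l _
        exact (mul_pos (div_pos (hzpos l) (hpos _ _)) (hpos _ _)).le
      · exact Finset.mem_univ k
    have h2 : (2 : ℝ) ≤ z k / cd k (a k) * cd k i := by
      rw [div_mul_eq_mul_div, le_div_iff₀ (hpos _ _)]
      have hz := hz2 k
      have hp := hpos k (a k)
      have h3 : 4 * cd k (a k) ≤ cd k i := by nlinarith
      nlinarith
    linarith

/-- base coordinates of the lifted points -/
noncomputable def base {d n : ℕ} (F : Fin d → Fin n → ℤ) (k : Fin d) (i : Fin n) : ℝ :=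
  (4 * d + 1 : ℝ) ^ (F k i)

/-- perturbed coordinates -/
noncomputable def crd {d n : ℕ} (F : Fin d → Fin n → ℤ) (s : ℝ) (k : Fin d) (i : Fin n) : ℝ :=
  base F k i + s⁻¹ * ((i : ℕ) : ℝ) ^ ((k : ℕ) + 1)

/-- the lifted points -/
noncomputable def pt {d n : ℕ} (F : Fin d → Fin n → ℤ) (s : ℝ) (i : Fin n) :
    EuclideanSpace ℝ (Fin d) :=
  WithLp.toLp 2 (fun k => crd F s k i)

lemma base_pos {d n : ℕ} (F : Fin d → Fin n → ℤ) (k : Fin d) (i : Fin n) : 0 < base F k i := by
  unfold base
  positivity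

lemma crd_pos {d n : ℕ} (F : Fin d → Fin n → ℤ) {s : ℝ} (hs : 0 < s) (k : Fin d) (i : Fin n) :
    0 < crd F s k i := by
  unfold crd
  have := base_pos F k i
  have : 0 ≤ s⁻¹ * ((i : ℕ) : ℝ) ^ ((k : ℕ) + 1) := by positivity
  linarith [base_pos F k i]

lemma tendsto_crd {d n : ℕ} (F : Fin d → Fin n → ℤ) (k : Fin d) (i : Fin n) :
    Filter.Tendsto (fun s => crd F s k i) Filter.atTop (nhds (base F k i)) := by
  unfold crd
  have h1 : Filter.Tendsto (fun s : ℝ => s⁻¹ * ((i : ℕ) : ℝ) ^ ((k : ℕ) + 1)) Filter.atTop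
      (nhds (0 * ((i : ℕ) : ℝ) ^ ((k : ℕ) + 1))) :=
    tendsto_inv_atTop_zero.mul_const _
  rw [zero_mul] at h1
  have h2 := (tendsto_const_nhds (x := base F k i) (f := Filter.atTop (α := ℝ))).add h1
  rw [add_zero] at h2
  exact h2

lemma base_ratio {d n : ℕ} (hd : 0 < d) (F : Fin d → Fin n → ℤ) (k : Fin d) {i j : Fin n}
    (h : F k i < F k j) : 4 * d * base F k i < base F k j := by
  have hdR : (1 : ℝ) ≤ d := by exact_mod_cast hd
  unfold base
  calc 4 * d * (4 * d + 1 : ℝ) ^ (F k i) < (4 * d + 1) * (4 * d + 1 : ℝ) ^ (F k i) := by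
        apply mul_lt_mul_of_pos_right (by linarith) (by positivity)
    _ = (4 * d + 1 : ℝ) ^ (F k i + 1) := by
        rw [zpow_add₀ (by positivity), zpow_one]; ring
    _ ≤ (4 * d + 1 : ℝ) ^ (F k j) := zpow_le_zpow_right₀ (by linarith) h

lemma eventually_ratio {d n : ℕ} (hd : 0 < d) (F : Fin d → Fin n → ℤ) :
    ∀ᶠ s in Filter.atTop, ∀ (k : Fin d) (i j : Fin n), F k i < F k j →
      4 * d * crd F s k i ≤ crd F s k j := by
  rw [Filter.eventually_all]
  intro k
  rw [Filter.eventually_all]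
  intro i
  rw [Filter.eventually_all]
  intro j
  by_cases hr : F k i < F k j
  · have h1 := (tendsto_crd F k i).const_mul (4 * d : ℝ)
    have h2 := tendsto_crd F k j
    have := h1.eventually_lt h2 (base_ratio hd F k hr)
    filter_upwards [this] with s hs _
    exact hs.le
  · exact Filter.Eventually.of_forall (fun s hh => absurd hh hr)

/-- the polynomial matrix controlling affine dependences of `d + 1` points -/
noncomputable def gpMat {d n : ℕ} (F : Fin d → Fin n → ℤ) (σ : Fin (d + 1) → Fin n) :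
    Matrix (Fin (d + 1)) (Fin (d + 1)) (Polynomial ℝ) :=
  fun j c => Fin.cases (motive := fun _ => Polynomial ℝ) 1
    (fun k => Polynomial.X * Polynomial.C (base F k (σ j)) +
      Polynomial.C ((((σ j : Fin n) : ℕ) : ℝ) ^ ((k : ℕ) + 1))) c

lemma gpMat_det_ne {d n : ℕ} (F : Fin d → Fin n → ℤ) (σ : Fin (d + 1) → Fin n)
    (hσ : Function.Injective σ) : (gpMat F σ).det ≠ 0 := by
  intro h
  have h1 : ((Polynomial.evalRingHom (0 : ℝ)).mapMatrix (gpMat F σ)).det = 0 := by
    rw [← RingHom.map_det, h, map_zero]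
  have h2 : (Polynomial.evalRingHom (0 : ℝ)).mapMatrix (gpMat F σ) =
      Matrix.vandermonde (fun j => (((σ j : Fin n) : ℕ) : ℝ)) := by
    ext j c
    simp only [RingHom.mapMatrix_apply, Matrix.map_apply, Matrix.vandermonde_apply, gpMat]
    refine Fin.cases ?_ ?_ c
    · simp
    · intro k
      simp
  rw [h2] at h1
  have h3 : Function.Injective (fun j => (((σ j : Fin n) : ℕ) : ℝ)) := by
    intro a b hab
    apply hσ
    apply Fin.ext
    have hab' : (((σ a : Fin n) : ℕ) : ℝ) = (((σ b : Fin n) : ℕ) : ℝ) := hab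
    exact_mod_cast hab'
  exact (Matrix.det_vandermonde_ne_zero_iff.mpr h3) h1

lemma gp_indep {d n : ℕ} (F : Fin d → Fin n → ℤ) (σ : Fin (d + 1) → Fin n) {s : ℝ} (hs : 0 < s)
    (h : ¬ (gpMat F σ).det.IsRoot s) : AffineIndependent ℝ (fun j => pt F s (σ j)) := by
  classical
  rw [affineIndependent_iff]
  intro t w hw0 hw1 j hj
  set w' : Fin (d + 1) → ℝ := fun j => if j ∈ t then w j else 0 with hw'
  have hsum0 : ∑ j, w' j = 0 := by
    rw [hw', Finset.sum_ite_mem]
    simpa using hw0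
  have hsum1 : ∀ k, ∑ j, w' j * crd F s k (σ j) = 0 := by
    intro k
    have h1 : (∑ e ∈ t, w e • pt F s (σ e)).ofLp k = 0 := by rw [hw1]; rfl
    have h2 : (∑ e ∈ t, w e • pt F s (σ e)).ofLp k = ∑ e ∈ t, w e * crd F s k (σ e) := by
      simp [pt]
    rw [h2] at h1
    have h3 : ∑ j, w' j * crd F s k (σ j) = ∑ e ∈ t, w e * crd F s k (σ e) := by
      have : ∀ j, w' j * crd F s k (σ j) = if j ∈ t then w j * crd F s k (σ j) else 0 := by
        intro j
        by_cases hj : j ∈ t <;> simp [hw', hj]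
      simp_rw [this]
      rw [Finset.sum_ite_mem]
      simp
    rw [h3, h1]
  have hdet : ((Polynomial.evalRingHom s).mapMatrix (gpMat F σ)).det ≠ 0 := by
    rw [← RingHom.map_det]
    exact h
  have hvec : Matrix.vecMul w' ((Polynomial.evalRingHom s).mapMatrix (gpMat F σ)) = 0 := by
    funext c
    simp only [Matrix.vecMul, dotProduct, RingHom.mapMatrix_apply, Matrix.map_apply, gpMat,
      Pi.zero_apply]
    refine Fin.cases ?_ ?_ c
    · simpa using hsum0
    · intro k
      have h1 := hsum1 k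
      have h2 : ∀ j, w' j * (Polynomial.evalRingHom s) ((Polynomial.X * Polynomial.C (base F k (σ j)) +
          Polynomial.C ((((σ j : Fin n) : ℕ) : ℝ) ^ ((k : ℕ) + 1)))) =
          s * (w' j * crd F s k (σ j)) := by
        intro j
        simp only [Polynomial.coe_evalRingHom, Polynomial.eval_add, Polynomial.eval_mul,
          Polynomial.eval_X, Polynomial.eval_C, crd]
        field_simp
      simp only [Fin.cases_succ]
      simp_rw [h2]
      rw [← Finset.mul_sum, h1, mul_zero]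
  have hzero := Matrix.eq_zero_of_vecMul_eq_zero hdet hvec
  have := congrFun hzero j
  simpa [hw', hj] using this

/-- All the geometric facts about the lifted points, for one good parameter `s`. -/
theorem exists_paramD {d n : ℕ} (hd : 0 < d) (F : Fin d → Fin n → ℤ) :
    ∃ s : ℝ, 0 < s ∧
      (∀ (k : Fin d) (i j : Fin n), F k i < F k j → 4 * d * crd F s k i ≤ crd F s k j) ∧
      (∀ σ : Fin (d + 1) → Fin n, Function.Injective σ →
        AffineIndependent ℝ (fun j => pt F s (σ j))) := by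
  have h4 : ∀ᶠ s in Filter.atTop, ∀ σ : Fin (d + 1) → Fin n, Function.Injective σ →
      ¬ (gpMat F σ).det.IsRoot s := by
    rw [Filter.eventually_all]
    intro σ
    by_cases hσ : Function.Injective σ
    · filter_upwards [Polynomial.eventually_atTop_not_isRoot _ (gpMat_det_ne F σ hσ)] with s hs _
      exact hs
    · exact Filter.Eventually.of_forall (fun s hh => absurd hh hσ)
  obtain ⟨s, hs0, hs4, hs5⟩ :=
    ((eventually_ratio hd F).and (h4.and (Filter.eventually_gt_atTop (0 : ℝ)))).exists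
  exact ⟨s, hs5, hs0, fun σ hσ => gp_indep F σ hs5 (hs4 σ hσ)⟩

end Pool.Agent.H523R3.Frames
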