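import Mathlib
import Pool.Agent.H659R2.PC

/-!
# Matrix spaces which are Jordan triple systems in unknown coordinates
-/

open Matrix Polynomial

namespace H523R3.JC

variable {K : Type*} [Field K] {n : Type*} [Fintype n] [DecidableEq n]

/-- all `Y` with `X Y X ∈ J` for all `X ∈ J` -/
def dual (J : Submodule K (Matrix n n K)) : Submodule K (Matrix n n K) where
  carrier := {Y | ∀ X ∈ J, X * Y * X ∈ J}
  add_mem' := by
    intro a b ha hb X hX
    rw [mul_add, add_mul]
    exact J.add_mem (ha X hX) (hb X hX)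
  zero_mem' := by
    intro X hX
    simp
  smul_mem' := by
    intro c a ha X hX
    rw [mul_smul_comm, smul_mul_assoc]
    exact J.smul_mem c (ha X hX)

lemma mem_dual {J : Submodule K (Matrix n n K)} {Y : Matrix n n K} :
    Y ∈ dual J ↔ ∀ X ∈ J, X * Y * X ∈ J := Iff.rfl

lemma lin_J {J : Submodule K (Matrix n n K)} {X Z Y : Matrix n n K} (hX : X ∈ J) (hZ : Z ∈ J)
    (hY : Y ∈ dual J) : X * Y * Z + Z * Y * X ∈ J := by
  have h := hY (X + Z) (J.add_mem hX hZ)
  have h2 := J.sub_mem (J.sub_mem h (hY X hX)) (hY Z hZ)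
  have e : X * Y * Z + Z * Y * X = (X + Z) * Y * (X + Z) - X * Y * X - Z * Y * Z := by
    noncomm_ring
  rw [e]
  exact h2

lemma dual_closed [CharZero K] {J : Submodule K (Matrix n n K)} {X Y : Matrix n n K} (hX : X ∈ J)
    (hY : Y ∈ dual J) : Y * X * Y ∈ dual J := by
  intro Z hZ
  have hT := lin_J hX hZ hY
  have h1 := lin_J hT hZ hY
  have h2 := lin_J hX (hY Z hZ) hY
  have h3 := J.sub_mem h1 h2
  have e : (X * Y * Z + Z * Y * X) * Y * Z + Z * Y * (X * Y * Z + Z * Y * X) -
      (X * Y * (Z * Y * Z) + Z * Y * Z * Y * X) = (2 : K) • (Z * (Y * X * Y) * Z) := by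
    rw [two_smul]
    noncomm_ring
  rw [e] at h3
  have h4 := J.smul_mem ((2 : K)⁻¹) h3
  rwa [smul_smul, inv_mul_cancel₀ (two_ne_zero), one_smul] at h4

lemma lin_dual [CharZero K] {J : Submodule K (Matrix n n K)} {X Y W : Matrix n n K} (hX : X ∈ J)
    (hY : Y ∈ dual J) (hW : W ∈ dual J) : Y * X * W + W * X * Y ∈ dual J := by
  have h := dual_closed hX ((dual J).add_mem hY hW)
  have h2 := (dual J).sub_mem ((dual J).sub_mem h (dual_closed hX hY)) (dual_closed hX hW)
  have e : Y * X * W + W * X * Y = (Y + W) * X * (Y + W) - Y * X * Y - W * X * W := by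
    noncomm_ring
  rw [e]
  exact h2

/-! ### words -/

lemma word_J [CharZero K] {J : Submodule K (Matrix n n K)} {Z W : Matrix n n K} (hZ : Z ∈ J)
    (hW : W ∈ dual J) : ∀ k : ℕ, (Z * W) ^ k * Z ∈ J
  | 0 => by simpa using hZ
  | 1 => by simpa using hW Z hZ
  | (k + 2) => by
    have h1 := word_J hZ hW k
    have h2 := dual_closed h1 hW Z hZ
    have e : (Z * W) ^ (k + 2) * Z = Z * (W * ((Z * W) ^ k * Z) * W) * Z := by
      rw [pow_succ, pow_succ']
      noncomm_ring
    rw [e]
    exact h2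

lemma word_dual [CharZero K] {J : Submodule K (Matrix n n K)} {Z W : Matrix n n K} (hZ : Z ∈ J)
    (hW : W ∈ dual J) : ∀ k : ℕ, W * (Z * W) ^ k ∈ dual J
  | 0 => by simpa using hW
  | 1 => by
    have := dual_closed hZ hW
    rw [pow_one, ← mul_assoc]
    exact this
  | (k + 2) => by
    have h1 := word_dual hZ hW k
    have h2 := dual_closed (h1 Z hZ) hW
    have e : W * (Z * W) ^ (k + 2) = W * (Z * (W * (Z * W) ^ k) * Z) * W := by
      rw [pow_succ, pow_succ']
      noncomm_ring
    rw [e]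
    exact h2

lemma poly_J [CharZero K] {J : Submodule K (Matrix n n K)} {Z W : Matrix n n K} (hZ : Z ∈ J)
    (hW : W ∈ dual J) (p : K[X]) : aeval (Z * W) p * Z ∈ J := by
  induction p using Polynomial.induction_on' with
  | add p q hp hq => rw [map_add, add_mul]; exact J.add_mem hp hq
  | monomial j a =>
    rw [aeval_monomial, mul_assoc, ← Algebra.smul_def]
    exact J.smul_mem a (word_J hZ hW j)

lemma poly_dual [CharZero K] {J : Submodule K (Matrix n n K)} {Z W : Matrix n n K} (hZ : Z ∈ J)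
    (hW : W ∈ dual J) (p : K[X]) : W * aeval (Z * W) p ∈ dual J := by
  induction p using Polynomial.induction_on' with
  | add p q hp hq => rw [map_add, mul_add]; exact (dual J).add_mem hp hq
  | monomial j a =>
    rw [aeval_monomial, Algebra.left_comm, ← Algebra.smul_def]
    exact (dual J).smul_mem a (word_dual hZ hW j)

/-! ### corners -/

lemma corner_J [CharZero K] {J : Submodule K (Matrix n n K)} {X Y Z : Matrix n n K} (hX : X ∈ J)
    (hY : Y ∈ dual J) (hZ : Z ∈ J) : (1 - X * Y) * Z * (1 - Y * X) ∈ J := by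
  have h1 := lin_J hX hZ hY
  have h2 := dual_closed hZ hY X hX
  have h3 := J.add_mem (J.sub_mem hZ h1) h2
  have e : (1 - X * Y) * Z * (1 - Y * X) = Z - (X * Y * Z + Z * Y * X) + X * (Y * Z * Y) * X := by
    noncomm_ring
  rw [e]
  exact h3

lemma corner_dual [CharZero K] {J : Submodule K (Matrix n n K)} {X Y W : Matrix n n K} (hX : X ∈ J)
    (hY : Y ∈ dual J) (hW : W ∈ dual J) : (1 - Y * X) * W * (1 - X * Y) ∈ dual J := by
  have h1 := lin_dual hX hY hW
  have h2 := dual_closed (hW X hX) hY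
  have h3 := (dual J).add_mem ((dual J).sub_mem hW h1) h2
  have e : (1 - Y * X) * W * (1 - X * Y) = W - (Y * X * W + W * X * Y) + Y * (X * W * X) * Y := by
    noncomm_ring
  rw [e]
  exact h3

/-! ### making the inner inverse reflexive -/

omit [DecidableEq n] in
lemma reflexive {X Y : Matrix n n K} (h : X * Y * X = X) :
    X * (Y * X * Y) * X = X ∧ (Y * X * Y) * X * (Y * X * Y) = Y * X * Y := by
  have h1 : X * (Y * X * Y) * X = (X * Y * X) * Y * X := by noncomm_ring
  have h2 : (Y * X * Y) * X * (Y * X * Y) = Y * (X * Y * X) * Y * X * Y := by noncomm_ring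
  refine ⟨by rw [h1, h, h], ?_⟩
  rw [h2, h]
  have h3 : Y * X * Y * X * Y = Y * (X * Y * X) * Y := by noncomm_ring
  rw [h3, h]

/-- inverses are polynomials -/
lemma exists_poly_inv {Z : Matrix n n K} (hZ : IsUnit Z) : ∃ q : K[X],
    Z * aeval Z q = 1 ∧ aeval Z q * Z = 1 := by
  obtain ⟨q, N, -, hN⟩ := H659R2.PC.fitting Z
  have h1 : Z * aeval Z q = 1 := by
    obtain ⟨U, hU⟩ := hZ.pow N
    rw [← hU] at hN
    have h3 := congrArg (fun M => (↑U⁻¹ : Matrix n n K) * M) hN
    simp only [← mul_assoc, Units.inv_mul, one_mul, mul_zero] at h3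
    exact (sub_eq_zero.1 h3).symm
  exact ⟨q, h1, mul_eq_one_comm.1 h1⟩


/-! ### augmentation -/

lemma rank_lt {X X1 X' Y1 : Matrix n n K} {F : Matrix n n K} (hXF : X' * F = X)
    (hX1 : X' * Y1 = X1) {P : Matrix n n K} (hP : P * X = X) (hP1 : P * X1 = 0)
    (hne : X1 ≠ 0) : X.rank < X'.rank := by
  have hle : LinearMap.range X.mulVecLin ≤ LinearMap.range X'.mulVecLin := by
    rintro _ ⟨v, rfl⟩
    refine ⟨F *ᵥ v, ?_⟩
    rw [Matrix.mulVecLin_apply, Matrix.mulVecLin_apply, Matrix.mulVec_mulVec, hXF]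
  have hlt : LinearMap.range X.mulVecLin < LinearMap.range X'.mulVecLin := by
    refine lt_of_le_of_ne hle fun heq => hne ?_
    apply Matrix.toLin'.injective
    apply LinearMap.ext
    intro v
    rw [Matrix.toLin'_apply, map_zero]
    have h1 : X1 *ᵥ v ∈ LinearMap.range X'.mulVecLin := by
      refine ⟨Y1 *ᵥ v, ?_⟩
      rw [Matrix.mulVecLin_apply, Matrix.mulVec_mulVec, hX1]
    rw [← heq] at h1
    obtain ⟨w, hw⟩ := h1
    rw [Matrix.mulVecLin_apply] at hw
    have h2 : P *ᵥ (X *ᵥ w) = X *ᵥ w := by rw [Matrix.mulVec_mulVec, hP]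
    rw [hw, Matrix.mulVec_mulVec, hP1, Matrix.zero_mulVec] at h2
    rw [← h2]
    rfl
  exact Submodule.finrank_lt_finrank_of_lt hlt

/-- the augmented matrix -/
def next (X Y Z W : Matrix n n K) : Matrix n n K :=
  X + ((1 - X * Y) * Z * (1 - Y * X) * W) ^ Fintype.card n * ((1 - X * Y) * Z * (1 - Y * X))

lemma augment [CharZero K] {J : Submodule K (Matrix n n K)} {X Y Z W : Matrix n n K} (hX : X ∈ J)
    (hY : Y ∈ dual J) (hXYX : X * Y * X = X) (hYXY : Y * X * Y = Y) (hZ : Z ∈ J)
    (hW : W ∈ dual J) (htr : ((1 - X * Y) * Z * (1 - Y * X) * W).trace ≠ 0) :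
    next X Y Z W ∈ J ∧ X.rank < (next X Y Z W).rank ∧
      ∃ Y' ∈ dual J, next X Y Z W * Y' * next X Y Z W = next X Y Z W ∧
        Y' * next X Y Z W * Y' = Y' := by
  set Z' := (1 - X * Y) * Z * (1 - Y * X) with hZ'
  set W' := (1 - Y * X) * W * (1 - X * Y) with hW'
  have hZJ : Z' ∈ J := corner_J hX hY hZ
  have hWJ : W' ∈ dual J := corner_dual hX hY hW
  -- annihilation
  have a1 : (1 - Y * X) * Y = 0 := by rw [sub_mul, one_mul, hYXY, sub_self]
  have a2 : Y * (1 - X * Y) = 0 := by rw [mul_sub, mul_one, ← mul_assoc, hYXY, sub_self]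
  have a3 : (1 - X * Y) * X = 0 := by rw [sub_mul, one_mul, hXYX, sub_self]
  have a4 : X * (1 - Y * X) = 0 := by rw [mul_sub, mul_one, ← mul_assoc, hXYX, sub_self]
  have hZY : Z' * Y = 0 := by rw [hZ', mul_assoc, a1, mul_zero]
  have hYZ : Y * Z' = 0 := by rw [hZ', ← mul_assoc, ← mul_assoc, a2, zero_mul, zero_mul]
  have hWX : W' * X = 0 := by rw [hW', mul_assoc, a3, mul_zero]
  have hXW : X * W' = 0 := by rw [hW', ← mul_assoc, ← mul_assoc, a4, zero_mul, zero_mul]
  set T := Z' * W' with hT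
  have hTeq : T = Z' * W * (1 - X * Y) := by
    have h1 : Z' * (1 - Y * X) = Z' := by rw [mul_sub, mul_one, ← mul_assoc, hZY, zero_mul, sub_zero]
    rw [hT, hW', ← mul_assoc, ← mul_assoc, h1]
  have hTtr : T.trace ≠ 0 := by
    rw [hTeq, Matrix.trace_mul_comm, ← mul_assoc]
    have h1 : (1 - X * Y) * Z' = Z' := by rw [sub_mul, one_mul, mul_assoc, hYZ, mul_zero, sub_zero]
    rw [h1]
    exact htr
  have hTZ : T * Z' = Z' * W * Z' := by
    have h1 : (1 - X * Y) * Z' = Z' := by rw [sub_mul, one_mul, mul_assoc, hYZ, mul_zero, sub_zero]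
    rw [hTeq, mul_assoc, h1]
  set m := Fintype.card n with hm
  have hpowZ : ∀ k : ℕ, (Z' * W) ^ k * Z' = T ^ k * Z' := by
    intro k
    induction k with
    | zero => simp
    | succ k ih =>
      have h1 : (Z' * W) ^ (k + 1) * Z' = ((Z' * W) ^ k * Z') * (W * Z') := by
        rw [pow_succ]; noncomm_ring
      have h2 : T ^ (k + 1) * Z' = (T ^ k * Z') * (W * Z') := by
        rw [pow_succ, mul_assoc, hTZ]; noncomm_ring
      rw [h1, h2, ih]
  have hnext : next X Y Z W = X + T ^ m * Z' := by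
    rw [next, ← hZ', ← hm, hpowZ]
  set X1 := T ^ m * Z' with hX1
  have hX1J : X1 ∈ J := word_J hZJ hWJ m
  -- T is not nilpotent
  have hTn : ∀ k : ℕ, T ^ k ≠ 0 := by
    intro k hk
    exact hTtr ((Matrix.isNilpotent_trace_of_isNilpotent (⟨k, hk⟩ : IsNilpotent T)).eq_zero)
  have hm1 : 1 ≤ m := by
    rcases Nat.eq_zero_or_pos m with h0 | h0
    · exfalso
      apply hTtr
      have : IsEmpty n := Fintype.card_eq_zero_iff.1 h0
      simp [Matrix.trace]
    · exact h0
  obtain ⟨P, hP⟩ := H659R2.PC.exists_core (H659R2.PC.rank_pow_eq (Z := T) (le_of_eq hm.symm))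
  obtain ⟨q, N, -, hN⟩ := H659R2.PC.fitting (T ^ m)
  have hPq := hP.eq_fitting hN
  -- the idempotent
  set R := aeval (T ^ m) q with hR
  have hcTR : Commute T R := by
    have h1 : Commute T (T ^ m) := (Commute.refl T).pow_right m
    have h2 : Commute (aeval T (Polynomial.X : K[X])) (aeval T (q.comp (Polynomial.X ^ m))) :=
      (Commute.all _ _).map (aeval T)
    rw [aeval_X, aeval_comp, map_pow, aeval_X] at h2
    exact h2
  have hE : T ^ m * R = 1 - P := by rw [← hPq, sub_sub_cancel]
  have hET : (T ^ m * R) * T ^ m = T ^ m := by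
    rw [hE, sub_mul, one_mul, hP.Pmul, sub_zero]
  have hEE : (T ^ m * R) * (T ^ m * R) = T ^ m * R := by
    rw [← mul_assoc, hET]
  set Y1 := W' * (T ^ (m - 1) * (R * R)) with hY1
  have hY1J : Y1 ∈ dual J := by
    have h1 := poly_dual hZJ hWJ (Polynomial.X ^ (m - 1) * ((q * q).comp (Polynomial.X ^ m)))
    rw [map_mul, map_pow, aeval_X, aeval_comp, map_pow, aeval_X, map_mul] at h1
    exact h1
  have hcomm2 : Commute (T ^ m) R := hcTR.pow_left m
  have hX1Y1 : X1 * Y1 = T ^ m * R := by
    have h1 : X1 * Y1 = T ^ m * (T * T ^ (m - 1)) * (R * R) := by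
      rw [hX1, hY1, hT]; noncomm_ring
    have h2 : T * T ^ (m - 1) = T ^ m := by
      rw [← pow_succ', Nat.sub_add_cancel hm1]
    rw [h1, h2, ← hEE]
    have h3 : T ^ m * R * (T ^ m * R) = T ^ m * (R * T ^ m) * R := by noncomm_ring
    rw [h3, ← hcomm2.eq]
    noncomm_ring
  have hX1Y1X1 : X1 * Y1 * X1 = X1 := by
    rw [hX1Y1, hX1, ← mul_assoc, hET]
  -- cross terms
  have hXY1 : X * Y1 = 0 := by rw [hY1, ← mul_assoc, hXW, zero_mul]
  have hX1Y : X1 * Y = 0 := by rw [hX1, mul_assoc, hZY, mul_zero]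
  have hYX1 : Y * X1 = 0 := by
    have h1 : Y * T = 0 := by rw [hT, ← mul_assoc, hYZ, zero_mul]
    obtain ⟨m', hm'⟩ : ∃ m', m = m' + 1 := ⟨m - 1, (Nat.sub_add_cancel hm1).symm⟩
    rw [hX1, hm', pow_succ', mul_assoc, ← mul_assoc Y T, h1, zero_mul]
  have hX1ne : X1 ≠ 0 := by
    intro h0
    have h1 : T ^ m = 0 := by
      rw [← hET, ← hX1Y1, h0, zero_mul, zero_mul]
    exact hTn m h1
  rw [hnext]
  have hkey : (X + X1) * (Y + Y1) * (X + X1) = X + X1 := by
    have hEX : X1 * Y1 * X = 0 := by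
      rw [hX1Y1]
      have h1 : T * X = 0 := by rw [hT, mul_assoc, hWX, mul_zero]
      have h2 : T ^ m * R * X = R * (T ^ (m - 1) * (T * X)) := by
        rw [hcomm2.eq]
        have : T ^ m = T ^ (m - 1) * T := by rw [← pow_succ, Nat.sub_add_cancel hm1]
        rw [this]
        noncomm_ring
      rw [h2, h1, mul_zero, mul_zero]
    have h1 : (X + X1) * (Y + Y1) * (X + X1) = X * Y * X + X * (Y * X1) + X * Y1 * (X + X1)
        + X1 * Y * (X + X1) + X1 * Y1 * X + X1 * Y1 * X1 := by noncomm_ring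
    rw [h1, hXYX, hYX1, hXY1, hX1Y, hEX, hX1Y1X1]
    simp
  refine ⟨J.add_mem hX hX1J, ?_, ?_⟩
  · refine rank_lt (X1 := X1) (Y1 := Y1 * X1) (F := Y * X) (P := X * Y) ?_ ?_ hXYX ?_ hX1ne
    · rw [add_mul, ← mul_assoc, hXYX, ← mul_assoc, hX1Y, zero_mul, add_zero]
    · rw [add_mul, ← mul_assoc, hXY1, zero_mul, zero_add, ← mul_assoc, hX1Y1X1]
    · rw [mul_assoc, hYX1, mul_zero]
  · have hr := reflexive hkey
    exact ⟨_, dual_closed (J.add_mem hX hX1J) ((dual J).add_mem hY hY1J), hr.1, hr.2⟩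

/-! ### the certificate -/

lemma trace_idem_ne [CharZero K] {F : Matrix n n K} (h : F * F = F) (hne : F ≠ 0) :
    F.trace ≠ 0 := by
  intro h0
  apply hne
  have hid' : IsIdempotentElem (Matrix.toLin' F) := by
    unfold IsIdempotentElem
    rw [Module.End.mul_eq_comp, ← Matrix.toLin'_mul, h]
  have := LinearMap.IsIdempotentElem.eq_zero_of_trace_eq_zero hid'
    (by rw [Matrix.trace_toLin'_eq]; exact h0)
  exact Matrix.toLin'.injective (by rw [this, map_zero])

/-- a good parameter -/
lemma exists_param [CharZero K] (X C N : Matrix n n K) (hC : IsUnit C) :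
    ∃ s : K, IsUnit (X + s • C) ∧ IsUnit (1 + s • N) := by
  have hCd : C.det ≠ 0 := ((Matrix.isUnit_iff_isUnit_det C).1 hC).ne_zero
  have hCC : C * C⁻¹ = 1 := Matrix.mul_nonsing_inv C ((Matrix.isUnit_iff_isUnit_det C).1 hC)
  set p1 : K[X] := (-(C⁻¹ * X)).charpoly with hp1
  set p2 : K[X] := (-N).charpolyRev with hp2
  have h1 : p1 ≠ 0 := (Matrix.charpoly_monic _).ne_zero
  have h2 : p2 ≠ 0 := by
    intro h0
    have := Matrix.eval_charpolyRev (M := -N)
    rw [← hp2, h0] at this
    simp at this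
  obtain ⟨s, hs⟩ : ∃ s : K, (p1 * p2).eval s ≠ 0 := by
    by_contra hcon
    push Not at hcon
    exact mul_ne_zero h1 h2 (Polynomial.funext fun t => by rw [hcon t, eval_zero])
  rw [eval_mul] at hs
  have hs1 := left_ne_zero_of_mul hs
  have hs2 := right_ne_zero_of_mul hs
  refine ⟨s, ?_, ?_⟩
  · rw [Matrix.isUnit_iff_isUnit_det, isUnit_iff_ne_zero]
    rw [hp1, Matrix.eval_charpoly] at hs1
    have e : X + s • C = C * (Matrix.scalar n s - -(C⁻¹ * X)) := by
      rw [sub_neg_eq_add, mul_add, ← mul_assoc, hCC, one_mul, add_comm]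
      congr 1
      ext i j
      simp [Matrix.scalar_apply, Matrix.mul_diagonal, mul_comm]
    rw [e, Matrix.det_mul]
    exact mul_ne_zero hCd hs1
  · rw [Matrix.isUnit_iff_isUnit_det, isUnit_iff_ne_zero]
    rw [hp2, Matrix.charpolyRev, ← coe_evalRingHom, RingHom.map_det] at hs2
    have e : (evalRingHom s).mapMatrix (1 - (Polynomial.X : K[X]) • (-N).map Polynomial.C)
        = 1 + s • N := by
      ext i j
      simp [Matrix.one_apply, apply_ite (Polynomial.eval s)]
      exact mul_comm _ _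
    rwa [e] at hs2


lemma certificate [CharZero K] {J : Submodule K (Matrix n n K)} {X Y C D : Matrix n n K}
    (hX : X ∈ J) (hY : Y ∈ dual J) (hXYX : X * Y * X = X) (hYXY : Y * X * Y = Y) (hC : C ∈ J)
    (hD : D ∈ dual J) (hCD : C * D = 1) (hne : X * Y ≠ 1) :
    ∃ S ∈ J, ∃ V ∈ dual J, ((1 - X * Y) * S * (1 - Y * X) * V).trace ≠ 0 := by
  have hDC : D * C = 1 := mul_eq_one_comm.1 hCD
  have hCu : IsUnit C := ⟨⟨C, D, hCD, hDC⟩, rfl⟩
  obtain ⟨s, hs1, hs2⟩ := exists_param X C (X * Y * C * Y) hCu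
  set M := X + s • C with hM
  have hMJ : M ∈ J := J.add_mem hX (J.smul_mem s hC)
  set e := X * Y with he
  have hee : e * e = e := by rw [he, ← mul_assoc, hXYX]
  have heX : e * X = X := hXYX
  have hYe : Y * e = Y := by rw [he, ← mul_assoc, hYXY]
  set G := e * M * Y + (1 - e) with hG
  have hGu : IsUnit G := by
    have h1 : G = 1 + s • (e * C * Y) := by
      rw [hG, hM, mul_add, add_mul, heX, mul_smul_comm, smul_mul_assoc, ← he]
      abel
    rw [h1]
    exact hs2
  obtain ⟨r, hr1, hr2⟩ := exists_poly_inv hGu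
  set Gi := aeval G r with hGi
  -- the inverse of M
  have hMu : IsUnit M := hs1
  have hMDu : IsUnit (M * D) := hMu.mul ⟨⟨D, C, hDC, hCD⟩, rfl⟩
  obtain ⟨q, hq1, -⟩ := exists_poly_inv hMDu
  set V := D * aeval (M * D) q with hV
  have hVJ : V ∈ dual J := poly_dual hMJ hD q
  have hMV : M * V = 1 := by rw [hV, ← mul_assoc, hq1]
  -- the outer inverse
  have hYG : ∀ k : ℕ, Y * G ^ k = Y * (M * Y) ^ k := by
    have h1 : Y * G = Y * (M * Y) := by
      rw [hG, mul_add, mul_sub, mul_one, hYe, sub_self, add_zero, ← mul_assoc, ← mul_assoc, hYe,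
        mul_assoc]
    intro k
    induction k with
    | zero => simp
    | succ k ih =>
      rw [pow_succ', ← mul_assoc, h1, mul_assoc, mul_assoc, ih, pow_succ']
      noncomm_ring
  have hYp : ∀ p : K[X], Y * aeval G p = Y * aeval (M * Y) p := by
    intro p
    induction p using Polynomial.induction_on' with
    | add p q hp hq => rw [map_add, map_add, mul_add, mul_add, hp, hq]
    | monomial j a =>
      rw [aeval_monomial, aeval_monomial, Algebra.left_comm, Algebra.left_comm, hYG]
  set L := Y * Gi with hL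
  have hLJ : L ∈ dual J := by
    rw [hL, hGi, hYp]
    exact poly_dual hMJ hY r
  have hcom : e * G = G * e := by
    rw [hG, mul_add, add_mul, mul_sub, sub_mul, mul_one, one_mul, hee]
    have h1 : e * M * Y * e = e * M * Y := by rw [mul_assoc, hYe]
    have h2 : e * (e * M * Y) = e * M * Y := by rw [← mul_assoc, ← mul_assoc, hee]
    rw [h1, h2]
  have hcomi : e * Gi = Gi * e := by
    have h1 : Gi * (e * G) * Gi = Gi * (G * e) * Gi := by rw [hcom]
    have h2 : Gi * (e * G) * Gi = Gi * e * (G * Gi) := by noncomm_ring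
    have h3 : Gi * (G * e) * Gi = (Gi * G) * e * Gi := by noncomm_ring
    rw [h2, h3, hr1, hr2, mul_one, one_mul] at h1
    exact h1.symm
  have hLe : L * e = L := by
    rw [hL, mul_assoc, ← hcomi, ← mul_assoc, hYe]
  have heG : (1 - e) * Gi = 1 - e := by
    have h1 : (1 - e) * G = 1 - e := by
      rw [hG, mul_add, ← mul_assoc, ← mul_assoc]
      have h2 : (1 - e) * e = 0 := by rw [sub_mul, one_mul, hee, sub_self]
      rw [h2, zero_mul, zero_mul, zero_add, mul_sub, mul_one, h2, sub_zero]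
    calc (1 - e) * Gi = (1 - e) * G * Gi := by rw [h1]
      _ = 1 - e := by rw [mul_assoc, hr1, mul_one]
  have heML : e * M * L = e := by
    have h1 : e * M * L = (G - (1 - e)) * Gi := by
      rw [hL, hG, add_sub_cancel_right]
      noncomm_ring
    rw [h1, sub_mul, hr1, heG, sub_sub_cancel]
  have hLML : L * M * L = L := by
    calc L * M * L = (L * e) * M * L := by rw [hLe]
      _ = L * (e * M * L) := by noncomm_ring
      _ = L := by rw [heML, hLe]
  have hLMf : L * M * (Y * X) = Y * X := by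
    calc L * M * (Y * X) = (L * e) * M * (Y * X) := by rw [hLe]
      _ = L * (e * M * Y) * X := by noncomm_ring
      _ = L * (G - (1 - e)) * X := by rw [hG, add_sub_cancel_right]
      _ = L * G * X - L * ((1 - e) * X) := by noncomm_ring
      _ = Y * X := by
        rw [sub_mul, one_mul, heX, sub_self, mul_zero, sub_zero, hL, mul_assoc Y, hr2, mul_one]
  set S := M - M * L * M with hS
  have hSJ : S ∈ J := J.sub_mem hMJ (hLJ M hMJ)
  have heS : e * S = 0 := by
    rw [hS, mul_sub]
    have h1 : e * (M * L * M) = (e * M * L) * M := by noncomm_ring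
    rw [h1, heML, sub_self]
  have hSf : S * (Y * X) = 0 := by
    rw [hS, sub_mul]
    have h1 : M * L * M * (Y * X) = M * (L * M * (Y * X)) := by noncomm_ring
    rw [h1, hLMf, sub_self]
  refine ⟨S, hSJ, V, hVJ, ?_⟩
  have h1 : (1 - e) * S * (1 - Y * X) = S := by
    rw [sub_mul, one_mul, heS, sub_zero, mul_sub, mul_one, hSf, sub_zero]
  rw [h1]
  have h2 : S * V = 1 - M * L := by
    rw [hS, sub_mul, hMV, mul_assoc (M * L), hMV, mul_one]
  have h3 : (M * L).trace = e.trace := by
    calc (M * L).trace = (M * (L * e)).trace := by rw [hLe]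
      _ = (M * L * e).trace := congrArg Matrix.trace (mul_assoc M L e).symm
      _ = (e * (M * L)).trace := Matrix.trace_mul_comm _ _
      _ = (e * M * L).trace := congrArg Matrix.trace (mul_assoc e M L).symm
      _ = e.trace := by rw [heML]
  rw [h2, Matrix.trace_sub, h3, ← Matrix.trace_sub]
  apply trace_idem_ne
  · rw [mul_sub, mul_one, sub_mul, one_mul, hee, sub_self, sub_zero]
  · intro h0
    exact hne (sub_eq_zero.1 h0).symm


/-! ### spaces closed under cubes -/

section cubes

variable [CharZero K]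

lemma inv_mem {N : Submodule K (Matrix n n K)} (hN : H659R2.PC.PowerClosed 3 N)
    {M D : Matrix n n K} (hM : M ∈ N) (hMD : M * D = 1) : D ∈ N := by
  have hDM : D * M = 1 := mul_eq_one_comm.1 hMD
  have hMu0 : IsUnit M := ⟨⟨M, D, hMD, hDM⟩, rfl⟩
  have hMu : IsUnit (M ^ 2) := hMu0.pow 2
  obtain ⟨q, hq, -⟩ := exists_poly_inv hMu
  have h1 := H659R2.PC.aeval_mem (d := 2) hN hM q
  have h2 : M * (M * aeval (M ^ 2) q) = 1 := by
    rw [← mul_assoc, ← sq, hq]
  have h3 : M * aeval (M ^ 2) q = D := by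
    calc M * aeval (M ^ 2) q = D * M * (M * aeval (M ^ 2) q) := by rw [hDM, one_mul]
      _ = D := by rw [mul_assoc, h2, mul_one]
  rwa [h3] at h1

/-- Hua's identity: `A M⁻¹ A` is in the space. -/
lemma hua {N : Submodule K (Matrix n n K)} (hN : H659R2.PC.PowerClosed 3 N)
    {A M B : Matrix n n K} (hA : A ∈ N) (hM : M ∈ N) (hMB : M * B = 1) : A * B * A ∈ N := by
  have hBM : B * M = 1 := mul_eq_one_comm.1 hMB
  have hMu : IsUnit M := ⟨⟨M, B, hMB, hBM⟩, rfl⟩
  have hMd : M.det ≠ 0 := ((Matrix.isUnit_iff_isUnit_det M).1 hMu).ne_zero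
  set p1 : K[X] := (-(B * A)).charpoly with hp1
  set p2 : K[X] := (1 - B * A).charpoly with hp2
  obtain ⟨s, hs⟩ : ∃ s : K, (p1 * p2).eval s ≠ 0 := by
    by_contra hcon
    push Not at hcon
    exact mul_ne_zero (Matrix.charpoly_monic _).ne_zero (Matrix.charpoly_monic _).ne_zero
      (Polynomial.funext fun t => by rw [hcon t, eval_zero])
  rw [eval_mul] at hs
  have hs1 := left_ne_zero_of_mul hs
  have hs2 := right_ne_zero_of_mul hs
  rw [hp1, Matrix.eval_charpoly] at hs1
  rw [hp2, Matrix.eval_charpoly] at hs2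
  have hscal : ∀ t : K, Matrix.scalar n t = t • (1 : Matrix n n K) := by
    intro t
    rw [Matrix.smul_one_eq_diagonal]
    rfl
  rw [hscal] at hs1 hs2
  set a := A + s • M with ha
  have haN : a ∈ N := N.add_mem hA (N.smul_mem s hM)
  have ha1 : IsUnit a := by
    have e : a = M * (s • (1 : Matrix n n K) - -(B * A)) := by
      rw [sub_neg_eq_add, mul_add, mul_smul_comm, mul_one, ← mul_assoc, hMB, one_mul, ha, add_comm]
    rw [Matrix.isUnit_iff_isUnit_det, isUnit_iff_ne_zero, e, Matrix.det_mul]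
    exact mul_ne_zero hMd hs1
  set c := M - a with hc
  have hcN : c ∈ N := N.sub_mem hM haN
  have hc1 : IsUnit c := by
    have e : c = -(M * (s • (1 : Matrix n n K) - (1 - B * A))) := by
      rw [mul_sub, mul_sub, mul_smul_comm, mul_one, ← mul_assoc, hMB, one_mul, hc, ha]
      abel
    rw [e]
    refine IsUnit.neg ?_
    rw [Matrix.isUnit_iff_isUnit_det, isUnit_iff_ne_zero, Matrix.det_mul]
    exact mul_ne_zero hMd hs2
  obtain ⟨⟨a₀, a', haa, haa'⟩, h0⟩ := ha1
  simp only at h0
  subst h0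
  obtain ⟨⟨c₀, c', hcc, hcc'⟩, h0⟩ := hc1
  simp only at h0
  have ha'N : a' ∈ N := inv_mem hN haN haa
  rw [h0] at hcc hcc'
  have hc'N : c' ∈ N := inv_mem hN hcN hcc
  have hw : (a' + c') * (a - a * B * a) = 1 := by
    have h1 : 1 - B * a = B * c := by rw [hc, mul_sub, hBM]
    have h2 : (a' + c') * (a - a * B * a) = (a' * a + c' * a) * (1 - B * a) := by noncomm_ring
    have h3 : a' * a + c' * a = c' * M := by
      rw [haa']
      have : c' * M = c' * c + c' * a := by rw [hc]; noncomm_ring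
      rw [this, hcc']
    rw [h2, h1, h3]
    have h4 : c' * M * (B * c) = c' * (M * B) * c := by noncomm_ring
    rw [h4, hMB, mul_one, hcc']
  have hwN : a - a * B * a ∈ N := inv_mem hN (N.add_mem ha'N hc'N) hw
  have h5 : a * B * a ∈ N := by
    have := N.sub_mem haN hwN
    rwa [sub_sub_cancel] at this
  have h6 : A * B * A = a * B * a - (2 * s) • A - (s * s) • M := by
    rw [ha]
    have h7 : (A + s • M) * B * (A + s • M) = A * B * A + s • (A * (B * M)) + s • (M * B * A)
        + (s * s) • (M * B * M) := by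
      simp only [add_mul, mul_add, smul_mul_assoc, mul_smul_comm, smul_smul, mul_assoc, smul_add]
      abel
    rw [h7, hBM, hMB, mul_one, one_mul, one_mul, two_mul, add_smul]
    abel
  rw [h6]
  exact N.sub_mem (N.sub_mem h5 (N.smul_mem _ hA)) (N.smul_mem _ hM)

end cubes

/-! ### extension of scalars -/

section ext

variable {σ : Type*} [Fintype σ] {L : Type*} [Field L] [Algebra K L]

/-- descent: a matrix over `K` in the `L`-span of matrices over `K` is in their `K`-span -/
lemma descent (B : σ → Matrix n n K) (l : σ → L) {X : Matrix n n K}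
    (h : X.map (algebraMap K L) = ∑ i, l i • (B i).map (algebraMap K L)) :
    X ∈ Submodule.span K (Set.range B) := by
  rw [← Submodule.Quotient.mk_eq_zero, ← Module.forall_dual_apply_eq_zero_iff K]
  intro f
  set g : Matrix n n K →ₗ[K] K := f ∘ₗ (Submodule.span K (Set.range B)).mkQ with hg
  have hgB : ∀ i, g (B i) = 0 := by
    intro i
    have : (Submodule.span K (Set.range B)).mkQ (B i) = 0 := by
      rw [Submodule.mkQ_apply, Submodule.Quotient.mk_eq_zero]
      exact Submodule.subset_span ⟨i, rfl⟩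
    rw [hg, LinearMap.comp_apply, this, map_zero]
  have hgx : ∀ Z : Matrix n n K, g Z = ∑ a, ∑ b, Z a b * g (Matrix.single a b 1) := by
    intro Z
    conv_lhs => rw [Matrix.matrix_eq_sum_single Z]
    rw [map_sum]
    refine Finset.sum_congr rfl fun a _ => ?_
    rw [map_sum]
    refine Finset.sum_congr rfl fun b _ => ?_
    have : Matrix.single a b (Z a b) = Z a b • (Matrix.single a b (1 : K)) := by
      rw [Matrix.smul_single, smul_eq_mul, mul_one]
    rw [this, map_smul, smul_eq_mul]
  have hL : ∀ Z : Matrix n n K, algebraMap K L (g Z) =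
      ∑ a, ∑ b, (Z.map (algebraMap K L)) a b * algebraMap K L (g (Matrix.single a b 1)) := by
    intro Z
    rw [hgx Z, map_sum]
    refine Finset.sum_congr rfl fun a _ => ?_
    rw [map_sum]
    refine Finset.sum_congr rfl fun b _ => ?_
    rw [map_mul, Matrix.map_apply]
  have h1 : algebraMap K L (g X) = 0 := by
    rw [hL X, h]
    have h2 : ∑ a, ∑ b, (∑ i, l i • (B i).map (algebraMap K L)) a b *
        algebraMap K L (g (Matrix.single a b 1)) = ∑ i, l i * algebraMap K L (g (B i)) := by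
      have h3 : ∀ i, l i * algebraMap K L (g (B i)) = ∑ a, ∑ b, l i *
          ((B i).map (algebraMap K L)) a b * algebraMap K L (g (Matrix.single a b 1)) := by
        intro i
        rw [hL (B i), Finset.mul_sum]
        refine Finset.sum_congr rfl fun a _ => ?_
        rw [Finset.mul_sum]
        refine Finset.sum_congr rfl fun b _ => ?_
        rw [mul_assoc]
      have h4 : ∑ i, l i * algebraMap K L (g (B i)) = ∑ i, ∑ a, ∑ b, l i *
          ((B i).map (algebraMap K L)) a b * algebraMap K L (g (Matrix.single a b 1)) :=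
        Finset.sum_congr rfl fun i _ => h3 i
      rw [h4]
      symm
      rw [Finset.sum_comm]
      refine Finset.sum_congr rfl fun a _ => ?_
      rw [Finset.sum_comm]
      refine Finset.sum_congr rfl fun b _ => ?_
      rw [Matrix.sum_apply, Finset.sum_mul]
      refine Finset.sum_congr rfl fun i _ => ?_
      rw [Matrix.smul_apply, smul_eq_mul]
    rw [h2]
    exact Finset.sum_eq_zero fun i _ => by rw [hgB i, map_zero, mul_zero]
  have h2 : g X = 0 := (map_eq_zero (algebraMap K L)).1 h1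
  exact h2

/-- the space in the coordinates given by `P` and `Q` -/
def coord (B : σ → Matrix n n K) (P Q : Matrix n n L) : Submodule L (Matrix n n L) :=
  Submodule.span L (Set.range fun i => P * (B i).map (algebraMap K L) * Q)

omit [Fintype σ] in
lemma coord_mem (B : σ → Matrix n n K) (P Q : Matrix n n L) {X : Matrix n n K}
    (hX : X ∈ Submodule.span K (Set.range B)) :
    P * X.map (algebraMap K L) * Q ∈ coord B P Q := by
  induction hX using Submodule.span_induction with
  | mem x hx =>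
    obtain ⟨i, rfl⟩ := hx
    exact Submodule.subset_span ⟨i, rfl⟩
  | zero =>
    have : (0 : Matrix n n K).map (algebraMap K L) = 0 := by ext; simp
    rw [this]
    simp
  | add x y _ _ hx hy =>
    have : (x + y).map (algebraMap K L) = x.map (algebraMap K L) + y.map (algebraMap K L) := by
      ext; simp
    rw [this, mul_add, add_mul]
    exact Submodule.add_mem _ hx hy
  | smul c x _ hx =>
    have : (c • x).map (algebraMap K L) = algebraMap K L c • x.map (algebraMap K L) := by
      ext; simp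
    rw [this, mul_smul_comm, smul_mul_assoc]
    exact Submodule.smul_mem _ _ hx

lemma mem_of_coord (B : σ → Matrix n n K) {P Q : Matrix n n L} (hP : IsUnit P) (hQ : IsUnit Q)
    {X : Matrix n n K} (h : P * X.map (algebraMap K L) * Q ∈ coord B P Q) :
    X ∈ Submodule.span K (Set.range B) := by
  obtain ⟨l, hl⟩ := (Submodule.mem_span_range_iff_exists_fun L).1 h
  refine descent B l ?_
  obtain ⟨⟨P₀, P', hPP, hPP'⟩, h0⟩ := hP
  simp only at h0
  subst h0
  obtain ⟨⟨Q₀, Q', hQQ, hQQ'⟩, h0⟩ := hQ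
  simp only at h0
  subst h0
  have h1 := congrArg (fun M => P' * M * Q') hl
  beta_reduce at h1
  have e : ∀ M : Matrix n n L, P' * (P₀ * M * Q₀) * Q' = M := by
    intro M
    have : P' * (P₀ * M * Q₀) * Q' = (P' * P₀) * M * (Q₀ * Q') := by noncomm_ring
    rw [this, hPP', hQQ, one_mul, mul_one]
  rw [e, Finset.mul_sum, Finset.sum_mul] at h1
  rw [← h1]
  refine Finset.sum_congr rfl fun i _ => ?_
  rw [mul_smul_comm, smul_mul_assoc, e]

/-- inverses of elements of a space which is cube closed in some coordinates are in its dual -/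
lemma inv_mem_dual [CharZero K] (B : σ → Matrix n n K) {P Q : Matrix n n L} (hP : IsUnit P)
    (hQ : IsUnit Q) (hN : H659R2.PC.PowerClosed 3 (coord B P Q)) {C D : Matrix n n K}
    (hC : C ∈ Submodule.span K (Set.range B)) (hCD : C * D = 1) :
    D ∈ dual (Submodule.span K (Set.range B)) := by
  have : CharZero L := charZero_of_injective_algebraMap (algebraMap K L).injective
  intro X hX
  apply mem_of_coord B hP hQ
  have hX' := coord_mem B P Q hX
  have hC' := coord_mem B P Q hC
  obtain ⟨⟨P₀, P', hPP, hPP'⟩, h0⟩ := hP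
  simp only at h0
  subst h0
  obtain ⟨⟨Q₀, Q', hQQ, hQQ'⟩, h0⟩ := hQ
  simp only at h0
  subst h0
  have hmul : ∀ U V : Matrix n n K, (U * V).map (algebraMap K L) =
      U.map (algebraMap K L) * V.map (algebraMap K L) := by
    intro U V
    exact (algebraMap K L).mapMatrix.map_mul U V
  have hinv : (P₀ * C.map (algebraMap K L) * Q₀) * (Q' * D.map (algebraMap K L) * P') = 1 := by
    have h1 : (P₀ * C.map (algebraMap K L) * Q₀) * (Q' * D.map (algebraMap K L) * P') =
        P₀ * (C.map (algebraMap K L) * (Q₀ * Q') * D.map (algebraMap K L)) * P' := by noncomm_ring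
    rw [h1, hQQ, mul_one, ← hmul, hCD]
    have h2 : (1 : Matrix n n K).map (algebraMap K L) = 1 := (algebraMap K L).mapMatrix.map_one
    rw [h2, mul_one, hPP]
  have h2 := hua hN hX' hC' hinv
  have h3 : P₀ * X.map (algebraMap K L) * Q₀ * (Q' * D.map (algebraMap K L) * P') *
      (P₀ * X.map (algebraMap K L) * Q₀) = P₀ * (X * D * X).map (algebraMap K L) * Q₀ := by
    rw [hmul, hmul]
    have h4 : P₀ * X.map (algebraMap K L) * Q₀ * (Q' * D.map (algebraMap K L) * P') *
      (P₀ * X.map (algebraMap K L) * Q₀) = P₀ * X.map (algebraMap K L) * (Q₀ * Q') *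
        D.map (algebraMap K L) * (P' * P₀) * X.map (algebraMap K L) * Q₀ := by noncomm_ring
    rw [h4, hQQ, hPP']
    noncomm_ring
  rwa [h3] at h2

end ext

end H523R3.JC
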