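import Mathlib

/-!
# Transversal ratios of simplicial spheres and polytopes: definitions
-/

set_option autoImplicit false

namespace Pool.Agent.H523R3.Trans

/-- Euclidean `d`-space. -/
abbrev E (d : ℕ) := EuclideanSpace ℝ (Fin d)

/-- `Δ` (a set of subsets of `Fin n`, the faces) is an abstract simplicial complex with vertex set
`Fin n`: it is closed under taking subsets, and every vertex is a face. -/
structure IsComplex {n : ℕ} (Δ : Set (Finset (Fin n))) : Prop where
  down : ∀ s ∈ Δ, ∀ t ⊆ s, t ∈ Δ
  vert : ∀ v, {v} ∈ Δ

/-- The facets are the faces which are maximal with respect to inclusion. -/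
def IsFacet {n : ℕ} (Δ : Set (Finset (Fin n))) (s : Finset (Fin n)) : Prop :=
  s ∈ Δ ∧ ∀ t ∈ Δ, s ⊆ t → t = s

/-- A transversal is a set of vertices which meets every facet. -/
def IsTransversal {n : ℕ} (Δ : Set (Finset (Fin n))) (W : Finset (Fin n)) : Prop :=
  ∀ s, IsFacet Δ s → ∃ v ∈ s, v ∈ W

/-- The transversal number: the least size of a transversal. -/
noncomputable def transversalNumber {n : ℕ} (Δ : Set (Finset (Fin n))) : ℕ :=
  sInf {k | ∃ W, IsTransversal Δ W ∧ W.card = k}

/-- The transversal ratio. -/
noncomputable def transversalRatio {n : ℕ} (Δ : Set (Finset (Fin n))) : ℝ :=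
  (transversalNumber Δ : ℝ) / (n : ℝ)

/-- The geometric realisation of `Δ`: the points of the standard simplex whose support is a
face. -/
def realization {n : ℕ} (Δ : Set (Finset (Fin n))) : Set (Fin n → ℝ) :=
  {x | (∀ i, 0 ≤ x i) ∧ ∑ i, x i = 1 ∧ Finset.univ.filter (fun i => x i ≠ 0) ∈ Δ}

/-- `Δ` is a simplicial `(d-1)`-sphere: a simplicial complex whose geometric realisation is
homeomorphic to the unit sphere of `ℝ^d`. -/
def IsSimplicialSphere (d : ℕ) {n : ℕ} (Δ : Set (Finset (Fin n))) : Prop :=
  IsComplex Δ ∧ Nonempty (realization Δ ≃ₜ Metric.sphere (0 : E d) 1)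

/-- The vertex `p i` maximises the linear functional `f` over the polytope with vertices `p`. -/
def IsMax {d n : ℕ} (p : Fin n → E d) (f : E d →ₗ[ℝ] ℝ) (i : Fin n) : Prop :=
  ∀ j, f (p j) ≤ f (p i)

/-- The convex hull of the points `p` is `d`-dimensional. -/
def IsFullDimensional {d n : ℕ} (p : Fin n → E d) : Prop :=
  (interior (convexHull ℝ (Set.range p))).Nonempty

/-- No `p i` lies in the convex hull of the other points: the `p i` are the vertices of their
convex hull, listed without repetition. -/
def InConvexPosition {d n : ℕ} (p : Fin n → E d) : Prop :=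
  ∀ i, p i ∉ convexHull ℝ (p '' {j | j ≠ i})

/-- Every proper face of the convex hull is a simplex: for every nonzero linear functional, the
vertices maximising it are affinely independent. -/
def HasSimplexFaces {d n : ℕ} (p : Fin n → E d) : Prop :=
  ∀ f : E d →ₗ[ℝ] ℝ, f ≠ 0 → AffineIndependent ℝ (fun i : {i : Fin n // IsMax p f i} => p i)

/-- `p` lists the `n` vertices of a simplicial `d`-polytope (their convex hull). -/
def IsSimplicialPolytope (d : ℕ) {n : ℕ} (p : Fin n → E d) : Prop :=
  IsFullDimensional p ∧ InConvexPosition p ∧ HasSimplexFaces p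

/-- The boundary complex of the polytope with vertices `p`: a set of vertices is a face if some
nonzero linear functional is maximised at all of them. -/
def boundary {d n : ℕ} (p : Fin n → E d) : Set (Finset (Fin n)) :=
  {s | ∃ f : E d →ₗ[ℝ] ℝ, f ≠ 0 ∧ ∀ i ∈ s, IsMax p f i}

/-- `τ^P_d`: limit superior over `n` of the largest transversal ratio of the boundary complex of a
simplicial `d`-polytope with `n` vertices. -/
noncomputable def tauP (d : ℕ) : ℝ :=
  Filter.limsup (fun n : ℕ => sSup {t : ℝ | ∃ p : Fin n → E d,
    IsSimplicialPolytope d p ∧ t = transversalRatio (boundary p)}) Filter.atTop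

/-- `τ^S_d`: limit superior over `n` of the largest transversal ratio of a simplicial
`(d-1)`-sphere with `n` vertices. -/
noncomputable def tauS (d : ℕ) : ℝ :=
  Filter.limsup (fun n : ℕ => sSup {t : ℝ | ∃ Δ : Set (Finset (Fin n)),
    IsSimplicialSphere d Δ ∧ t = transversalRatio Δ}) Filter.atTop

end Pool.Agent.H523R3.Trans
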