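import Mathlib
import Pool.Agent.H523R3.TransDefs

/-!
# The boundary complex of a simplicial polytope is a simplicial sphere
-/

set_option autoImplicit false

namespace Pool.Agent.H523R3.Trans

open Set Filter Topology

theorem IsSimplicialPolytope.full {d n : ℕ} {p : Fin n → E d} (hp : IsSimplicialPolytope d p) :
    affineSpan ℝ (Set.range p) = ⊤ :=
  interior_convexHull_nonempty_iff_affineSpan_eq_top.1 hp.1

theorem IsSimplicialPolytope.vert {d n : ℕ} {p : Fin n → E d} (hp : IsSimplicialPolytope d p) :
    ∀ i, p i ∉ convexHull ℝ (p '' {j | j ≠ i}) := hp.2.1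

theorem IsSimplicialPolytope.simplicial {d n : ℕ} {p : Fin n → E d}
    (hp : IsSimplicialPolytope d p) : ∀ f : E d →ₗ[ℝ] ℝ, f ≠ 0 →
      AffineIndependent ℝ (fun i : {i : Fin n // ∀ j, f (p j) ≤ f (p i)} => p i) := hp.2.2

/-- the affine parametrisation of the hull -/
noncomputable def bary {d n : ℕ} (p : Fin n → E d) : (Fin n → ℝ) →ₗ[ℝ] E d where
  toFun x := ∑ i, x i • p i
  map_add' x y := by simp [add_smul, Finset.sum_add_distrib]
  map_smul' r x := by simp [mul_smul, Finset.smul_sum]

lemma bary_apply {d n : ℕ} (p : Fin n → E d) (x : Fin n → ℝ) : bary p x = ∑ i, x i • p i := rfl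

lemma continuous_bary {d n : ℕ} (p : Fin n → E d) : Continuous (bary p) := by
  have : Continuous (fun x : Fin n → ℝ => ∑ i, x i • p i) := by fun_prop
  exact this

lemma image_bary {d n : ℕ} (p : Fin n → E d) :
    bary p '' (stdSimplex ℝ (Fin n)) = convexHull ℝ (range p) := by
  classical
  rw [← convexHull_rangle_single_eq_stdSimplex, (bary p).image_convexHull, ← range_comp]
  congr 1
  ext x
  simp only [mem_range, Function.comp]
  constructor
  · rintro ⟨i, rfl⟩
    exact ⟨i, by simp [bary_apply, Pi.single_apply]⟩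
  · rintro ⟨i, rfl⟩
    exact ⟨i, by simp [bary_apply, Pi.single_apply]⟩

lemma map_bary {d n : ℕ} (p : Fin n → E d) (f : E d →ₗ[ℝ] ℝ) (x : Fin n → ℝ) :
    f (bary p x) = ∑ i, x i * f (p i) := by
  simp [bary_apply]

/-- if the maximum of `f` over the vertices is attained at a convex combination, it is attained at
every vertex of its support -/
lemma supp_max {d n : ℕ} (p : Fin n → E d) (f : E d →ₗ[ℝ] ℝ) {x : Fin n → ℝ}
    (h0 : ∀ i, 0 ≤ x i) (h1 : ∑ i, x i = 1) {c : ℝ} (hc : ∀ i, f (p i) ≤ c)
    (hx : f (bary p x) = c) : ∀ i, x i ≠ 0 → f (p i) = c := by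
  intro i hi
  rw [map_bary] at hx
  have h2 : ∑ i, x i * (c - f (p i)) = 0 := by
    simp only [mul_sub, Finset.sum_sub_distrib, hx, ← Finset.sum_mul, h1]
    ring
  rw [Finset.sum_eq_zero_iff_of_nonneg (fun j _ => mul_nonneg (h0 j) (sub_nonneg.2 (hc j)))] at h2
  have h3 := h2 i (Finset.mem_univ i)
  rcases mul_eq_zero.1 h3 with h | h
  · exact absurd h hi
  · linarith

lemma mem_stdSimplex_of_realization {n : ℕ} {Δ : Set (Finset (Fin n))} {x : Fin n → ℝ}
    (hx : x ∈ realization Δ) : x ∈ stdSimplex ℝ (Fin n) := ⟨hx.1, hx.2.1⟩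

lemma isCompact_realization {n : ℕ} {Δ : Set (Finset (Fin n))} (hΔ : IsComplex Δ) :
    IsCompact (realization Δ) := by
  classical
  have h : realization Δ = ⋃ s ∈ Δ, (stdSimplex ℝ (Fin n) ∩ {x | ∀ i, i ∉ s → x i = 0}) := by
    ext x
    simp only [mem_iUnion, mem_inter_iff, exists_prop]
    constructor
    · intro hx
      refine ⟨_, hx.2.2, mem_stdSimplex_of_realization hx, ?_⟩
      intro i hi
      simpa using hi
    · rintro ⟨s, hs, hx, hx0⟩
      refine ⟨hx.1, hx.2, hΔ.down s hs _ ?_⟩
      intro i hi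
      simp only [Finset.mem_filter, Finset.mem_univ, true_and] at hi
      by_contra his
      exact hi (hx0 i his)
  rw [h]
  apply Set.Finite.isCompact_biUnion (Set.toFinite _)
  intro s _
  apply (isCompact_stdSimplex ℝ (Fin n)).inter_right
  have : {x : Fin n → ℝ | ∀ i, i ∉ s → x i = 0} = ⋂ i ∈ (sᶜ : Finset (Fin n)), {x | x i = 0} := by
    ext x
    simp
  rw [this]
  apply isClosed_biInter
  intro i _
  exact isClosed_eq (continuous_apply i) continuous_const

lemma exists_ne_zero_functional {d : ℕ} (hd : 0 < d) : ∃ f : E d →ₗ[ℝ] ℝ, f ≠ 0 := by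
  refine ⟨(EuclideanSpace.proj (⟨0, hd⟩ : Fin d) : E d →L[ℝ] ℝ), ?_⟩
  intro h
  have := LinearMap.congr_fun h (EuclideanSpace.single (⟨0, hd⟩ : Fin d) (1 : ℝ))
  simp at this

lemma isComplex_boundary {d n : ℕ} (hd : 0 < d) {p : Fin n → E d}
    (hp : IsSimplicialPolytope d p) : IsComplex (boundary p) := by
  constructor
  · rintro s ⟨f, hf, h⟩ t hts
    exact ⟨f, hf, fun i hi => h i (hts hi)⟩
  · intro v
    by_cases hex : ∃ j, j ≠ v
    · have hcl : IsClosed (convexHull ℝ (p '' {j | j ≠ v})) :=
        ((Set.toFinite _).isCompact_convexHull ℝ).isClosed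
      obtain ⟨f, u, h1, h2⟩ := geometric_hahn_banach_closed_point (convex_convexHull ℝ _) hcl
        (hp.vert v)
      have h3 : ∀ j, j ≠ v → f (p j) < f (p v) := fun j hj =>
        (h1 _ (subset_convexHull ℝ _ ⟨j, hj, rfl⟩)).trans h2
      refine ⟨f, ?_, ?_⟩
      · intro h0
        obtain ⟨j, hj⟩ := hex
        have h4 := h3 j hj
        have h5 : ∀ x, f x = 0 := fun x => by
          have := LinearMap.congr_fun h0 x
          simpa using this
        rw [h5, h5] at h4
        exact lt_irrefl _ h4
      · intro i hi j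
        rw [Finset.mem_singleton] at hi
        subst hi
        by_cases hj : j = i
        · subst hj; exact le_rfl
        · exact (h3 j hj).le
    · push Not at hex
      obtain ⟨f, hf⟩ := exists_ne_zero_functional hd
      refine ⟨f, hf, ?_⟩
      intro i hi j
      rw [hex i, hex j]

lemma le_of_mem_hull {d n : ℕ} (p : Fin n → E d) (f : E d →ₗ[ℝ] ℝ) {c : ℝ}
    (hc : ∀ i, f (p i) ≤ c) {y : E d} (hy : y ∈ convexHull ℝ (range p)) : f y ≤ c := by
  have hsub : range p ⊆ {x | f x ≤ c} := by
    rintro _ ⟨i, rfl⟩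
    exact hc i
  exact convexHull_min hsub (convex_halfSpace_le f.isLinear c) hy

lemma bary_mem_frontier {d n : ℕ} {p : Fin n → E d} {x : Fin n → ℝ}
    (hx : x ∈ realization (boundary p)) : bary p x ∈ frontier (convexHull ℝ (range p)) := by
  classical
  obtain ⟨h0, h1, f, hf, hmax⟩ := hx
  have hmem : bary p x ∈ convexHull ℝ (range p) := by
    rw [← image_bary]
    exact ⟨x, ⟨h0, h1⟩, rfl⟩
  have hne : ∃ i, x i ≠ 0 := by
    by_contra hcon
    push Not at hcon
    rw [Finset.sum_eq_zero (fun i _ => hcon i)] at h1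
    exact zero_ne_one h1
  obtain ⟨i0, hi0⟩ := hne
  have hc : ∀ i, f (p i) ≤ f (p i0) := fun i => hmax i0 (by simpa using hi0) i
  have hval : f (bary p x) = f (p i0) := by
    rw [map_bary]
    have : ∀ i, x i * f (p i) = x i * f (p i0) := by
      intro i
      by_cases hi : x i = 0
      · simp [hi]
      · have := hmax i (by simpa using hi) i0
        rw [le_antisymm (hc i) this]
    simp_rw [this]
    rw [← Finset.sum_mul, h1, one_mul]
  refine ⟨subset_closure hmem, ?_⟩
  intro hint
  obtain ⟨v, hv⟩ : ∃ v, f v ≠ 0 := by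
    by_contra hcon
    push Not at hcon
    exact hf (LinearMap.ext fun x => by simp [hcon x])
  -- move in the direction of `v` scaled to have positive value
  set w : E d := (f v) • v with hw
  have hfw : 0 < f w := by
    rw [hw, map_smul, smul_eq_mul]
    exact mul_self_pos.2 hv
  have hcont : Tendsto (fun t : ℝ => bary p x + t • w) (𝓝[>] 0) (𝓝 (bary p x)) := by
    have h1 : Continuous (fun t : ℝ => bary p x + t • w) := by fun_prop
    have h2 := h1.tendsto 0
    simp only [zero_smul, add_zero] at h2
    exact h2.mono_left nhdsWithin_le_nhds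
  have hev := hcont.eventually (mem_interior_iff_mem_nhds.1 hint)
  have hpos : ∀ᶠ t : ℝ in 𝓝[>] 0, 0 < t := eventually_mem_nhdsWithin
  obtain ⟨t, ht1, ht2⟩ := (hev.and hpos).exists
  have h3 := le_of_mem_hull p f hc ht1
  rw [map_add, map_smul, hval, smul_eq_mul] at h3
  have : 0 < t * f w := mul_pos ht2 hfw
  linarith

lemma bary_injOn {d n : ℕ} {p : Fin n → E d} (hp : IsSimplicialPolytope d p) :
    InjOn (bary p) (realization (boundary p)) := by
  classical
  intro x hx y hy hxy
  obtain ⟨h0, h1, f, hf, hmax⟩ := hx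
  obtain ⟨g0, g1, _⟩ := hy
  have hne : ∃ i, x i ≠ 0 := by
    by_contra hcon
    push Not at hcon
    rw [Finset.sum_eq_zero (fun i _ => hcon i)] at h1
    exact zero_ne_one h1
  obtain ⟨i0, hi0⟩ := hne
  have hc : ∀ i, f (p i) ≤ f (p i0) := fun i => hmax i0 (by simpa using hi0) i
  have hval : f (bary p x) = f (p i0) := by
    rw [map_bary]
    have : ∀ i, x i * f (p i) = x i * f (p i0) := by
      intro i
      by_cases hi : x i = 0
      · simp [hi]
      · have := hmax i (by simpa using hi) i0
        rw [le_antisymm (hc i) this]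
    simp_rw [this]
    rw [← Finset.sum_mul, h1, one_mul]
  have hx' := supp_max p f h0 h1 hc hval
  have hy' := supp_max p f g0 g1 hc (by rw [← hxy]; exact hval)
  -- restrict to the face
  have hind := hp.simplicial f hf
  rw [affineIndependent_iff_of_fintype] at hind
  have hface : ∀ i, f (p i) = f (p i0) → ∀ j, f (p j) ≤ f (p i) := fun i hi j => by
    rw [hi]; exact hc j
  have hz : ∀ i, i ∉ Finset.univ.filter (fun i => ∀ j, f (p j) ≤ f (p i)) → x i = 0 ∧ y i = 0 := by
    intro i hi
    simp only [Finset.mem_filter, Finset.mem_univ, true_and] at hi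
    constructor
    · by_contra h; exact hi (hface i (hx' i h))
    · by_contra h; exact hi (hface i (hy' i h))
  set S : Finset (Fin n) := Finset.univ.filter (fun i => ∀ j, f (p j) ≤ f (p i)) with hS
  have hsumS : ∀ {M : Type} [AddCommMonoid M] (F : Fin n → M), (∀ i, i ∉ S → F i = 0) →
      ∑ i : {i : Fin n // ∀ j, f (p j) ≤ f (p i)}, F i = ∑ i, F i := by
    intro M _ F hF
    rw [← Finset.sum_subtype S (fun i => by simp [hS])]
    exact Finset.sum_subset (Finset.subset_univ _) (fun i _ hi => hF i hi)
  have h2 := hind (fun i => x i - y i) (by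
    rw [hsumS (fun i => x i - y i) (fun i hi => by rw [(hz i hi).1, (hz i hi).2, sub_zero])]
    rw [Finset.sum_sub_distrib, h1, g1, sub_self]) (by
    rw [Finset.weightedVSub_eq_weightedVSubOfPoint_of_sum_eq_zero _ _ _ _ (0 : E d)]
    · rw [Finset.weightedVSubOfPoint_apply]
      simp only [vsub_eq_sub, sub_zero]
      rw [hsumS (fun i => (x i - y i) • p i) (fun i hi => by
        rw [(hz i hi).1, (hz i hi).2, sub_zero, zero_smul])]
      simp only [sub_smul, Finset.sum_sub_distrib]
      rw [← bary_apply, ← bary_apply, hxy, sub_self]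
    · rw [hsumS (fun i => x i - y i) (fun i hi => by rw [(hz i hi).1, (hz i hi).2, sub_zero])]
      rw [Finset.sum_sub_distrib, h1, g1, sub_self])
  funext i
  by_cases hi : i ∈ S
  · have := h2 ⟨i, by simpa [hS] using hi⟩
    simp only at this
    linarith
  · rw [(hz i hi).1, (hz i hi).2]

lemma frontier_subset_image {d n : ℕ} {p : Fin n → E d} (hp : IsSimplicialPolytope d p) :
    frontier (convexHull ℝ (range p)) ⊆ bary p '' realization (boundary p) := by
  classical
  intro y hy
  have hne : (interior (convexHull ℝ (range p))).Nonempty :=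
    interior_convexHull_nonempty_iff_affineSpan_eq_top.2 hp.full
  have hcl : IsClosed (convexHull ℝ (range p)) :=
    ((Set.finite_range p).isCompact_convexHull ℝ).isClosed
  have hyK : y ∈ convexHull ℝ (range p) := hcl.frontier_subset hy
  have hyint : y ∉ interior (convexHull ℝ (range p)) := hy.2
  obtain ⟨f, hf⟩ := geometric_hahn_banach_open_point ((convex_convexHull ℝ (range p)).interior)
    isOpen_interior hyint
  have hle : ∀ z ∈ convexHull ℝ (range p), f z ≤ f y := by
    intro z hz
    have h1 : z ∈ closure (interior (convexHull ℝ (range p))) := by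
      rw [(convex_convexHull ℝ (range p)).closure_interior_eq_closure_of_nonempty_interior hne]
      exact subset_closure hz
    have h2 : IsClosed {z | f z ≤ f y} := isClosed_le f.continuous continuous_const
    have h3 : interior (convexHull ℝ (range p)) ⊆ {z | f z ≤ f y} := fun a ha => (hf a ha).le
    exact (closure_minimal h3 h2) h1
  rw [← image_bary] at hyK
  obtain ⟨x, ⟨hx0, hx1⟩, rfl⟩ := hyK
  refine ⟨x, ⟨hx0, hx1, (f : E d →ₗ[ℝ] ℝ), ?_, ?_⟩, rfl⟩
  · intro h0
    obtain ⟨a, ha⟩ := hne
    have h4 := hf a ha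
    have h5 : ∀ x, f x = 0 := fun x => by
      have := LinearMap.congr_fun h0 x
      simpa using this
    rw [h5, h5] at h4
    exact lt_irrefl _ h4
  · have hc : ∀ i, (f : E d →ₗ[ℝ] ℝ) (p i) ≤ f (bary p x) := fun i =>
      hle _ (subset_convexHull ℝ _ ⟨i, rfl⟩)
    have hs := supp_max p (f : E d →ₗ[ℝ] ℝ) hx0 hx1 hc rfl
    intro i hi j
    simp only [Finset.mem_filter, Finset.mem_univ, true_and] at hi
    rw [hs i hi]
    exact hc j

/-- The boundary complex of a simplicial `d`-polytope is a simplicial `(d-1)`-sphere. -/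
theorem isSimplicialSphere_boundary {d n : ℕ} (hd : 0 < d) {p : Fin n → E d}
    (hp : IsSimplicialPolytope d p) : IsSimplicialSphere d (boundary p) := by
  classical
  have hΔ := isComplex_boundary hd hp
  refine ⟨hΔ, ?_⟩
  have hne : (interior (convexHull ℝ (range p))).Nonempty :=
    interior_convexHull_nonempty_iff_affineSpan_eq_top.2 hp.full
  have hbdd : Bornology.IsBounded (convexHull ℝ (range p)) :=
    ((Set.finite_range p).isCompact_convexHull ℝ).isBounded
  obtain ⟨h, -, -, hfr⟩ := exists_homeomorph_image_interior_closure_frontier_eq_unitBall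
    (convex_convexHull ℝ (range p)) hne hbdd
  have himg : bary p '' realization (boundary p) = frontier (convexHull ℝ (range p)) := by
    apply Set.Subset.antisymm
    · rintro _ ⟨x, hx, rfl⟩
      exact bary_mem_frontier hx
    · exact frontier_subset_image hp
  have : CompactSpace (realization (boundary p)) :=
    isCompact_iff_compactSpace.1 (isCompact_realization hΔ)
  let e0 : realization (boundary p) ≃ (bary p '' realization (boundary p)) :=
    Equiv.Set.imageOfInjOn _ _ (bary_injOn hp)
  have he0 : Continuous e0 := by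
    apply Continuous.subtype_mk
    exact (continuous_bary p).comp continuous_subtype_val
  let e1 : realization (boundary p) ≃ₜ (bary p '' realization (boundary p)) :=
    he0.homeoOfEquivCompactToT2
  let e2 : (bary p '' realization (boundary p)) ≃ₜ frontier (convexHull ℝ (range p)) :=
    Homeomorph.setCongr himg
  let e3 : frontier (convexHull ℝ (range p)) ≃ₜ (h '' frontier (convexHull ℝ (range p))) :=
    h.image _
  let e4 : (h '' frontier (convexHull ℝ (range p))) ≃ₜ Metric.sphere (0 : E d) 1 :=
    Homeomorph.setCongr hfr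
  exact ⟨e1.trans (e2.trans (e3.trans e4))⟩

end Pool.Agent.H523R3.Trans
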