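import Mathlib
import Pool.Agent.H523R3.TransSphere
import Pool.Agent.H523R3.FrameGeom

/-!
# Transversal ratios of simplicial polytopes of dimension at least four tend to one
-/

set_option autoImplicit false

namespace Pool.Agent.H523R3.Trans

open Set Filter Topology Pool.Agent.H523R3.Frames

/-- a linear functional which is constant on an affinely spanning family vanishes -/
lemma eq_zero_of_const {d : ℕ} {ι : Type} {q : ι → E d} (hq : affineSpan ℝ (range q) = ⊤)
    (f : E d →ₗ[ℝ] ℝ) {c : ℝ} (hc : ∀ i, f (q i) = c) : f = 0 := by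
  have hall : ∀ x : E d, f x = c := by
    intro x
    have hx : x ∈ affineSpan ℝ (range q) := by rw [hq]; trivial
    have hsub : affineSpan ℝ (range q) ≤ (AffineSubspace.mk' c ⊥).comap f.toAffineMap := by
      rw [affineSpan_le]
      rintro _ ⟨i, rfl⟩
      simp [hc i, AffineSubspace.mem_mk']
    have h2 := hsub hx
    simp only [AffineSubspace.mem_comap, AffineSubspace.mem_mk',
      vsub_eq_sub, Submodule.mem_bot] at h2
    have h3 : f x - c = 0 := h2
    linarith
  have h0 := hall 0
  rw [map_zero] at h0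
  ext x
  rw [hall x, ← h0]; rfl

/-- faces of a simplicial `d`-polytope have at most `d` vertices -/
lemma card_face_le {d n : ℕ} {p : Fin n → E d} (hp : IsSimplicialPolytope d p)
    {s : Finset (Fin n)} (hs : s ∈ boundary p) : s.card ≤ d := by
  classical
  obtain ⟨f, hf, hmax⟩ := hs
  have hind := hp.simplicial f hf
  by_contra hcon
  push Not at hcon
  have hfin : Module.finrank ℝ (E d) = d := by simp
  have hcard : s.card ≤ Fintype.card {i : Fin n // ∀ j, f (p j) ≤ f (p i)} := by
    rw [Fintype.card_subtype]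
    apply Finset.card_le_card
    intro i hi
    simp only [Finset.mem_filter, Finset.mem_univ, true_and]
    exact hmax i hi
  have h1 := hind.card_le_finrank_succ
  have h2 : Module.finrank ℝ (vectorSpan ℝ (range fun i : {i : Fin n // ∀ j, f (p j) ≤ f (p i)} => p i))
      ≤ d := by
    have := Submodule.finrank_le
      (vectorSpan ℝ (range fun i : {i : Fin n // ∀ j, f (p j) ≤ f (p i)} => p i))
    omega
  have h3 : Fintype.card {i : Fin n // ∀ j, f (p j) ≤ f (p i)} = Module.finrank ℝ (E d) + 1 := by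
    rw [hfin]; omega
  have hspan := (hind.affineSpan_eq_top_iff_card_eq_finrank_add_one).2 h3
  have hne : Nonempty {i : Fin n // ∀ j, f (p j) ≤ f (p i)} := by
    rw [← Fintype.card_pos_iff, h3]; omega
  obtain ⟨i0⟩ := hne
  exact hf (eq_zero_of_const hspan f (c := f (p i0)) fun i => le_antisymm (i0.2 i) (i.2 i0))

/-- the linear functional with given coefficients -/
noncomputable def lin {d : ℕ} (e : Fin d → ℝ) : E d →ₗ[ℝ] ℝ where
  toFun := fun x => ∑ k, e k * x.ofLp k
  map_add' := fun x y => by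
    rw [← Finset.sum_add_distrib]
    apply Finset.sum_congr rfl
    intro k _
    simp [mul_add]
  map_smul' := fun r x => by
    simp only [RingHom.id_apply, smul_eq_mul]
    rw [Finset.mul_sum]
    apply Finset.sum_congr rfl
    intro k _
    simp only [PiLp.smul_apply, smul_eq_mul]
    ring

lemma lin_pt {d n : ℕ} (F : Fin d → Fin n → ℤ) (s : ℝ) (e : Fin d → ℝ) (i : Fin n) :
    lin e (pt F s i) = ∑ k, e k * crd F s k i := rfl

/-- the lifted points are the vertices of a simplicial polytope -/
lemma isSimplicialPolytope_pt {d n : ℕ} (hd : 0 < d) (hn : d + 1 ≤ n) (F : Fin d → Fin n → ℤ)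
    (hanti : ∀ i j, i ≠ j → ∃ k, F k i < F k j) {s : ℝ} (hs : 0 < s)
    (hF : ∀ (k : Fin d) (i j : Fin n), F k i < F k j → 4 * d * crd F s k i ≤ crd F s k j)
    (hgp : ∀ σ : Fin (d + 1) → Fin n, Function.Injective σ →
        AffineIndependent ℝ (fun j => pt F s (σ j))) : IsSimplicialPolytope d (pt F s) := by
  classical
  have hpos := crd_pos F hs
  have hdR : (1 : ℝ) ≤ d := by exact_mod_cast hd
  have hspan : ∀ σ : Fin (d + 1) → Fin n, Function.Injective σ →
      affineSpan ℝ (Set.range (fun j => pt F s (σ j))) = ⊤ := by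
    intro σ hσ
    rw [(hgp σ hσ).affineSpan_eq_top_iff_card_eq_finrank_add_one]
    simp
  refine ⟨?_, ?_, ?_⟩
  · rw [IsFullDimensional, interior_convexHull_nonempty_iff_affineSpan_eq_top]
    have h1 := hspan (Fin.castLE hn) (Fin.castLE_injective hn)
    rw [eq_top_iff, ← h1]
    apply affineSpan_mono
    rintro _ ⟨j, rfl⟩
    exact ⟨_, rfl⟩
  · intro i hmem
    let e : Fin d → ℝ := fun k => 1 / crd F s k i
    have hsub : (pt F s '' {j | j ≠ i}) ⊆ {x | (4 * d : ℝ) ≤ lin e x} := by
      rintro _ ⟨j, hji, rfl⟩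
      show (4 * d : ℝ) ≤ lin e (pt F s j)
      rw [lin_pt]
      have hterm : ∀ k, 0 ≤ e k * crd F s k j := fun k =>
        (mul_pos (one_div_pos.mpr (hpos k i)) (hpos k j)).le
      obtain ⟨k, hk⟩ := hanti i j (Ne.symm hji)
      have hk' := hF k i j hk
      have h1 : e k * crd F s k j ≤ ∑ k, e k * crd F s k j :=
        Finset.single_le_sum (f := fun k => e k * crd F s k j) (fun l _ => hterm l)
          (Finset.mem_univ k)
      have h2 : (4 * d : ℝ) ≤ e k * crd F s k j := by
        show (4 * d : ℝ) ≤ 1 / crd F s k i * crd F s k j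
        rw [one_div, inv_mul_eq_div, le_div_iff₀ (hpos k i)]
        exact hk'
      linarith
    have hconv : Convex ℝ {x | (4 * d : ℝ) ≤ lin e x} := convex_halfSpace_ge (lin e).isLinear _
    have h10 : (4 * d : ℝ) ≤ lin e (pt F s i) := convexHull_min hsub hconv hmem
    rw [lin_pt] at h10
    have h4 : ∑ k, e k * crd F s k i = d := by
      have : ∀ k, e k * crd F s k i = 1 := fun k => by
        show 1 / crd F s k i * crd F s k i = 1
        rw [one_div, inv_mul_cancel₀ (hpos k i).ne']
      simp [this]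
    rw [h4] at h10
    linarith
  · intro f hf
    set Z : Finset (Fin n) := Finset.univ.filter (fun i => ∀ j, f (pt F s j) ≤ f (pt F s i)) with hZ
    have hZcard : Z.card ≤ d := by
      by_contra hcon
      push Not at hcon
      let σ := Finset.orderEmbOfCardLe Z (k := d + 1) hcon
      have hσZ : ∀ t, σ t ∈ Z := fun t => Finset.orderEmbOfCardLe_mem Z hcon t
      have hsp := hspan σ σ.injective
      refine hf (eq_zero_of_const hsp f (c := f (pt F s (σ 0))) fun t => ?_)
      have h1 := (Finset.mem_filter.mp (hσZ t)).2 (σ 0)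
      have h2 := (Finset.mem_filter.mp (hσZ 0)).2 (σ t)
      linarith
    obtain ⟨Z', hZZ', -, hZ'card⟩ := Finset.exists_subsuperset_card_eq (Finset.subset_univ Z)
      (show Z.card ≤ d + 1 by omega)
      (show d + 1 ≤ (Finset.univ : Finset (Fin n)).card by simpa using hn)
    let σ := Z'.orderEmbOfFin hZ'card
    have hind := hgp σ σ.injective
    -- embed the maximisers into `Fin (d+1)`
    have hex : ∀ i : {i : Fin n // ∀ j, f (pt F s j) ≤ f (pt F s i)}, ∃ t, σ t = i := by
      rintro ⟨i, hi⟩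
      have hiZ : i ∈ Z := by
        rw [hZ, Finset.mem_filter]
        exact ⟨Finset.mem_univ _, hi⟩
      have hi' : i ∈ Set.range σ := by
        rw [Finset.range_orderEmbOfFin]
        exact_mod_cast hZZ' hiZ
      exact hi'
    choose g hg using hex
    have hginj : Function.Injective g := by
      intro a b hab
      apply Subtype.ext
      rw [← hg a, ← hg b, hab]
    have h5 := hind.comp_embedding ⟨g, hginj⟩
    have h6 : (fun i : {i : Fin n // ∀ j, f (pt F s j) ≤ f (pt F s i)} => pt F s i) =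
        (fun j => pt F s (σ j)) ∘ (⟨g, hginj⟩ : _ ↪ Fin (d + 1)) := by
      funext i
      show pt F s i = pt F s (σ (g i))
      rw [hg i]
    rw [← h6] at h5
    exact h5

/-- a frame of height functions is a facet of the boundary complex -/
lemma isFacet_of_frame {d n : ℕ} (hd : 0 < d) (F : Fin d → Fin n → ℤ) {s : ℝ} (hs : 0 < s)
    (hF : ∀ (k : Fin d) (i j : Fin n), F k i < F k j → 4 * d * crd F s k i ≤ crd F s k j)
    (hp : IsSimplicialPolytope d (pt F s)) (a : Fin d → Fin n)
    (ha : ∀ k l, l ≠ k → F k (a l) < F k (a k))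
    (hv : ∀ v, (∀ k, v ≠ a k) → ∃ k, F k (a k) < F k v) :
    IsFacet (boundary (pt F s)) (Finset.univ.image a) := by
  classical
  obtain ⟨e, he1, he2⟩ := frame_facetD hd F (crd F s) (crd_pos F hs) hF a ha hv
  have hainj : Function.Injective a := by
    intro k l hkl
    by_contra hne
    have := ha k l (Ne.symm hne)
    rw [hkl] at this
    exact lt_irrefl _ this
  have hcard : (Finset.univ.image a).card = d := by
    rw [Finset.card_image_of_injective _ hainj]; simp
  have hge : ∀ i, 1 ≤ ∑ k, e k * crd F s k i := by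
    intro i
    by_cases h : ∃ k, i = a k
    · obtain ⟨k, rfl⟩ := h
      rw [he1]
    · push Not at h
      exact (he2 i h).le
  refine ⟨⟨-lin e, ?_, ?_⟩, ?_⟩
  · intro h0
    have h1 : (-lin e) (pt F s (a ⟨0, hd⟩)) = 0 := by rw [h0]; rfl
    rw [LinearMap.neg_apply, lin_pt, he1] at h1
    norm_num at h1
  · intro i hi j
    simp only [Finset.mem_image, Finset.mem_univ, true_and] at hi
    obtain ⟨k, rfl⟩ := hi
    rw [LinearMap.neg_apply, LinearMap.neg_apply, lin_pt, lin_pt, he1]
    linarith [hge j]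
  · intro t ht hst
    have h1 := card_face_le hp ht
    exact (Finset.eq_of_subset_of_card_le hst (by rw [hcard]; exact h1)).symm

lemma transversalRatio_le_one {n : ℕ} {Δ : Set (Finset (Fin n))} (hΔ : IsComplex Δ) :
    transversalRatio Δ ≤ 1 := by
  classical
  unfold transversalRatio
  have h1 : transversalNumber Δ ≤ n := by
    unfold transversalNumber
    rcases Nat.eq_zero_or_pos n with hn | hn
    · subst hn
      by_cases hex : ∃ k, k ∈ {k | ∃ W, IsTransversal Δ W ∧ W.card = k}
      · obtain ⟨k, W, hW, hk⟩ := hex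
        have h2 := Nat.sInf_le (show k ∈ {k | ∃ W, IsTransversal Δ W ∧ W.card = k} from ⟨W, hW, hk⟩)
        have h3 : W.card ≤ Fintype.card (Fin 0) := Finset.card_le_univ W
        simp only [Fintype.card_fin] at h3
        omega
      · have : {k | ∃ W, IsTransversal Δ W ∧ W.card = k} = ∅ := by
          rw [Set.eq_empty_iff_forall_notMem]
          intro k hk
          exact hex ⟨k, hk⟩
        rw [this, Nat.sInf_empty]
    · apply Nat.sInf_le
      refine ⟨Finset.univ, ?_, by simp⟩
      intro s hs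
      have hne : s.Nonempty := by
        by_contra hcon
        rw [Finset.not_nonempty_iff_eq_empty] at hcon
        have := hs.2 {⟨0, hn⟩} (hΔ.vert _) (by rw [hcon]; exact Finset.empty_subset _)
        rw [hcon] at this
        exact Finset.singleton_ne_empty _ this
      obtain ⟨v, hv⟩ := hne
      exact ⟨v, hv, Finset.mem_univ v⟩
  rcases Nat.eq_zero_or_pos n with hn | hn
  · subst hn; simp
  · rw [div_le_one (by exact_mod_cast hn)]
    exact_mod_cast h1

lemma transversalRatio_nonneg {n : ℕ} (Δ : Set (Finset (Fin n))) : 0 ≤ transversalRatio Δ := by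
  unfold transversalRatio; positivity

/-- **Main construction.** -/
theorem exists_polytope {d : ℕ} (hd : 4 ≤ d) (q : ℕ) (hq : 0 < q) (N : ℕ) :
    ∃ n : ℕ, N ≤ n ∧ ∃ p : Fin n → E d, IsSimplicialPolytope d p ∧
      1 - 1 / (q : ℝ) ≤ transversalRatio (boundary p) := by
  classical
  obtain ⟨n, hn, F, hF0, hF1, hfr⟩ := exists_framesD hd q hq (N + d + 1)
  obtain ⟨s, hs, hF, hgp⟩ := exists_paramD (by omega : 0 < d) F
  have hanti : ∀ i j, i ≠ j → ∃ k, F k i < F k j := by
    intro i j hij
    rcases lt_or_gt_of_ne hij with h | h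
    · exact ⟨_, hF0 i j h⟩
    · exact ⟨_, hF1 j i h⟩
  have hp := isSimplicialPolytope_pt (by omega : 0 < d) (by omega) F hanti hs hF hgp
  refine ⟨n, by omega, pt F s, hp, ?_⟩
  have hn0 : 0 < n := by omega
  have hΔ := isComplex_boundary (by omega : 0 < d) hp
  have hne : {k | ∃ W, IsTransversal (boundary (pt F s)) W ∧ W.card = k}.Nonempty := by
    refine ⟨_, Finset.univ, ?_, rfl⟩
    intro t ht
    have hne : t.Nonempty := by
      by_contra hcon
      rw [Finset.not_nonempty_iff_eq_empty] at hcon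
      have := ht.2 {⟨0, hn0⟩} (hΔ.vert _) (by rw [hcon]; exact Finset.empty_subset _)
      rw [hcon] at this
      exact Finset.singleton_ne_empty _ this
    obtain ⟨v, hv⟩ := hne
    exact ⟨v, hv, Finset.mem_univ v⟩
  obtain ⟨W, hW, hWcard⟩ := Nat.sInf_mem hne
  have hWc : ¬ n ≤ q * (Wᶜ).card := by
    intro hcon
    obtain ⟨a, haW, ha, hv⟩ := hfr Wᶜ hcon
    obtain ⟨v, hv1, hv2⟩ := hW _ (isFacet_of_frame (by omega : 0 < d) F hs hF hp a ha hv)
    simp only [Finset.mem_image, Finset.mem_univ, true_and] at hv1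
    obtain ⟨k, rfl⟩ := hv1
    exact (Finset.mem_compl.1 (haW k)) hv2
  have hcompl : (Wᶜ).card + W.card = n := by
    rw [Finset.card_compl, Fintype.card_fin]
    have : W.card ≤ Fintype.card (Fin n) := Finset.card_le_univ W
    rw [Fintype.card_fin] at this
    omega
  have hnR : (0 : ℝ) < n := by exact_mod_cast hn0
  have hqR : (0 : ℝ) < q := by exact_mod_cast hq
  have h1 : (q : ℝ) * (Wᶜ).card < n := by
    push Not at hWc
    exact_mod_cast hWc
  have h2 : ((Wᶜ).card : ℝ) + W.card = n := by exact_mod_cast hcompl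
  unfold transversalRatio transversalNumber
  rw [← hWcard, le_div_iff₀ hnR]
  have h3 : ((Wᶜ).card : ℝ) < n / q := by
    rw [lt_div_iff₀ hqR]; linarith
  have h4 : (1 - 1 / (q : ℝ)) * n = n - n / q := by ring
  rw [h4]
  linarith

/-- limit superior of suprema of sets of ratios reaching arbitrarily close to one -/
lemma limsup_eq_one (A : ℕ → Set ℝ) (hle : ∀ n, ∀ t ∈ A n, t ≤ 1)
    (hge : ∀ q : ℕ, 0 < q → ∀ N : ℕ, ∃ n, N ≤ n ∧ ∃ t ∈ A n, 1 - 1 / (q : ℝ) ≤ t) :
    limsup (fun n => sSup (A n)) atTop = 1 := by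
  have hu : ∀ n, sSup (A n) ≤ 1 := fun n => Real.sSup_le (hle n) zero_le_one
  have hbdd : IsBoundedUnder (· ≤ ·) atTop (fun n => sSup (A n)) :=
    isBoundedUnder_of ⟨1, hu⟩
  have hfreq : ∀ q : ℕ, 0 < q → ∃ᶠ n in atTop, 1 - 1 / (q : ℝ) ≤ sSup (A n) := by
    intro q hq
    rw [frequently_atTop]
    intro N
    obtain ⟨n, hn, t, ht, h1⟩ := hge q hq N
    exact ⟨n, hn, h1.trans (le_csSup ⟨1, fun x hx => hle n x hx⟩ ht)⟩
  have hcob : IsCoboundedUnder (· ≤ ·) atTop (fun n => sSup (A n)) :=
    IsCoboundedUnder.of_frequently_ge (hfreq 1 one_pos)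
  apply le_antisymm
  · exact limsup_le_of_le hcob (Eventually.of_forall hu)
  · have h1 : ∀ q : ℕ, 0 < q → 1 - 1 / (q : ℝ) ≤ limsup (fun n => sSup (A n)) atTop :=
      fun q hq => le_limsup_of_frequently_le (hfreq q hq) hbdd
    apply le_of_forall_pos_le_add
    intro ε hε
    obtain ⟨q, hq⟩ := exists_nat_gt (1 / ε)
    have hqpos : (0 : ℝ) < q := lt_trans (by positivity) hq
    have hq0 : 0 < q := by exact_mod_cast hqpos
    have h2 := h1 q hq0
    have h3 : 1 / (q : ℝ) ≤ ε := by
      rw [div_le_iff₀ hqpos]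
      rw [div_lt_iff₀ hε] at hq
      linarith
    linarith

theorem tauP_eq_one {d : ℕ} (hd : 4 ≤ d) : tauP d = 1 := by
  apply limsup_eq_one
  · rintro n t ⟨p, hp, rfl⟩
    exact transversalRatio_le_one (isComplex_boundary (by omega) hp)
  · intro q hq N
    obtain ⟨n, hn, p, hp, h⟩ := exists_polytope hd q hq N
    exact ⟨n, hn, _, ⟨p, hp, rfl⟩, h⟩

theorem tauS_eq_one {d : ℕ} (hd : 4 ≤ d) : tauS d = 1 := by
  apply limsup_eq_one
  · rintro n t ⟨Δ, hΔ, rfl⟩
    exact transversalRatio_le_one hΔ.1
  · intro q hq N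
    obtain ⟨n, hn, p, hp, h⟩ := exists_polytope hd q hq N
    exact ⟨n, hn, _, ⟨boundary p, isSimplicialSphere_boundary (by omega) hp, rfl⟩, h⟩

end Pool.Agent.H523R3.Trans
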